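import Pool.Agent.H123R3.C1.Topo

/-! # The homeomorphism of the closed ball -/

set_option autoImplicit false

open Set Real Topology Metric

namespace Pool.Agent.H123R3.C1

/-- the parameter space -/
def Kset : Set (Fin 6 → ℝ) := {k | Kp (k 0) (k 1) (k 2) (k 3) (k 4) (k 5)}

lemma Kset_closed : IsClosed Kset := by
  have e : Kset = {k : Fin 6 → ℝ | k 0 ^ 2 + k 1 ^ 2 = 1} ∩ ({k | 0 ≤ k 2} ∩
      ({k | nq (k 2 * k 0) (k 2 * k 1) (k 3) = 1} ∩ ({k | 0 ≤ k 4} ∩ ({k | k 4 ≤ 1} ∩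
      ({k | nq (k 4 * k 2 * k 0) (k 4 * k 2 * k 1) (k 5) ≤ 1} ∩
      {k | Vf (k 4 * k 2 * k 0) (k 4 * k 2 * k 1) (k 5) = Vf (k 2 * k 0) (k 2 * k 1) (k 3)}))))) := by
    ext k; rfl
  rw [e]
  refine (isClosed_eq (by fun_prop) (by fun_prop)).inter ((isClosed_le (by fun_prop) (by fun_prop)).inter
    ((isClosed_eq ?_ (by fun_prop)).inter ((isClosed_le (by fun_prop) (by fun_prop)).inter
    ((isClosed_le (by fun_prop) (by fun_prop)).inter ((isClosed_le ?_ (by fun_prop)).inter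
    (isClosed_eq ?_ ?_))))))
  · unfold nq; fun_prop
  · unfold nq; fun_prop
  · unfold Vf U; fun_prop
  · unfold Vf U; fun_prop

lemma l_le {a b l β : ℝ} (h1 : a ^ 2 + b ^ 2 = 1) (hl : 0 ≤ l) (h : nq (l * a) (l * b) β = 1) :
    l ≤ exp 3 := by
  have hβ := mem_of_nq h.le
  rw [nq_eq] at h
  have hN : exp (-6) ≤ Nf a b β := by
    unfold Nf
    have e1 : exp (-6) ≤ exp (6 * β) := exp_le_exp.2 (by linarith [hβ.1])
    have e2 : exp (-6) ≤ exp (-(6 * β)) := exp_le_exp.2 (by linarith [hβ.2])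
    have g1 := mul_le_mul_of_nonneg_left e1 (sq_nonneg a)
    have g2 := mul_le_mul_of_nonneg_left e2 (sq_nonneg b)
    have g3 : exp (-6) = a ^ 2 * exp (-6) + b ^ 2 * exp (-6) := by rw [← add_mul, h1, one_mul]
    linarith
  have h2 : l ^ 2 * exp (-6) ≤ 1 := by
    have := mul_le_mul_of_nonneg_left hN (sq_nonneg l)
    nlinarith [sq_nonneg β]
  have h3 : l ^ 2 ≤ exp 3 ^ 2 := by
    have e3 : exp 3 ^ 2 * exp (-6) = 1 := by
      rw [← exp_nat_mul, ← exp_add]; norm_num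
    have : l ^ 2 * exp (-6) ≤ exp 3 ^ 2 * exp (-6) := by rw [e3]; exact h2
    exact le_of_mul_le_mul_right this (exp_pos _)
  exact abs_le_of_sq_le_sq' h3 (exp_pos _).le |>.2

lemma Kset_compact : IsCompact Kset := by
  apply isCompact_of_isClosed_isBounded Kset_closed
  refine (isBounded_closedBall (x := (0 : Fin 6 → ℝ)) (r := exp 3)).subset fun k hk => ?_
  rw [mem_closedBall_zero_iff, pi_norm_le_iff_of_nonneg (exp_pos _).le]
  have h1 : (1 : ℝ) ≤ exp 3 := one_le_exp (by norm_num)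
  obtain ⟨e1, e2, e3, e4, e5, e6, e7⟩ := hk
  have m3 := mem_of_nq e3.le
  have m5 := mem_of_nq e6
  have key : ∀ i : Fin 6, |k i| ≤ exp 3 := by
    intro i
    fin_cases i
    · refine le_trans ?_ h1
      change |k 0| ≤ 1
      rw [abs_le]; constructor <;> nlinarith [sq_nonneg (k 1)]
    · refine le_trans ?_ h1
      change |k 1| ≤ 1
      rw [abs_le]; constructor <;> nlinarith [sq_nonneg (k 0)]
    · change |k 2| ≤ exp 3
      rw [abs_of_nonneg e2]
      exact l_le e1 e2 e3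
    · exact le_trans (abs_le.2 m3) h1
    · refine le_trans ?_ h1
      change |k 4| ≤ 1
      rw [abs_of_nonneg e4]; exact e5
    · exact le_trans (abs_le.2 m5) h1
  intro i
  rw [Real.norm_eq_abs]
  exact key i

lemma mem_ball_iff (x : E3) : x ∈ closedBall (0 : E3) 1 ↔ x 0 ^ 2 + x 1 ^ 2 + x 2 ^ 2 ≤ 1 := by
  rw [mem_closedBall_zero_iff, ← sq_le_one_iff₀ (norm_nonneg _), EuclideanSpace.norm_sq_eq,
    Fin.sum_univ_three]
  simp

lemma exp_sq3 (z : ℝ) : exp (3 * z) ^ 2 = exp (6 * z) := by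
  rw [← exp_nat_mul]; congr 1; push_cast; ring

lemma exp_sq3' (z : ℝ) : exp (-(3 * z)) ^ 2 = exp (-(6 * z)) := by
  rw [← exp_nat_mul]; congr 1; push_cast; ring

/-- the point of the source ball -/
noncomputable def Amap (k : Kset) : closedBall (0 : E3) 1 :=
  ⟨!₂[k.1 4 * k.1 2 * k.1 0 * exp (3 * k.1 5), k.1 4 * k.1 2 * k.1 1 * exp (-(3 * k.1 5)), k.1 5], by
    rw [mem_ball_iff]
    obtain ⟨-, -, -, -, -, e6, -⟩ := k.2
    simp only [Matrix.cons_val_zero, Matrix.cons_val_one, Matrix.cons_val]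
    rw [mul_pow, mul_pow _ (exp (-(3 * k.1 5))), exp_sq3, exp_sq3']
    exact e6⟩

/-- the point of the target ball -/
noncomputable def Bmap (k : Kset) : closedBall (0 : E3) 1 :=
  ⟨!₂[k.1 4 * √(1 - (wv (k.1 0) (k.1 1) (k.1 2) (k.1 3)) ^ 2) * k.1 0,
    k.1 4 * √(1 - (wv (k.1 0) (k.1 1) (k.1 2) (k.1 3)) ^ 2) * k.1 1,
    wv (k.1 0) (k.1 1) (k.1 2) (k.1 3)], by
    rw [mem_ball_iff]
    have hw := wv_sq k.2
    obtain ⟨e1, -, -, e4, e5, -, -⟩ := k.2
    simp only [Matrix.cons_val_zero, Matrix.cons_val_one, Matrix.cons_val]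
    set w := wv (k.1 0) (k.1 1) (k.1 2) (k.1 3)
    have e : (k.1 4 * √(1 - w ^ 2) * k.1 0) ^ 2 + (k.1 4 * √(1 - w ^ 2) * k.1 1) ^ 2 =
        k.1 4 ^ 2 * (1 - w ^ 2) := by
      have : (k.1 4 * √(1 - w ^ 2) * k.1 0) ^ 2 + (k.1 4 * √(1 - w ^ 2) * k.1 1) ^ 2 =
        k.1 4 ^ 2 * √(1 - w ^ 2) ^ 2 * (k.1 0 ^ 2 + k.1 1 ^ 2) := by ring
      rw [this, e1, Real.sq_sqrt (by linarith), mul_one]
    rw [e]
    have : k.1 4 ^ 2 ≤ 1 := by nlinarith
    nlinarith⟩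

lemma Amap_cont : Continuous Amap := by
  apply Continuous.subtype_mk
  refine (PiLp.continuous_toLp 2 _).comp (continuous_pi fun i => ?_)
  fin_cases i
  · exact (show Continuous fun k : Fin 6 → ℝ => k 4 * k 2 * k 0 * exp (3 * k 5) by
      fun_prop).comp continuous_subtype_val
  · exact (show Continuous fun k : Fin 6 → ℝ => k 4 * k 2 * k 1 * exp (-(3 * k 5)) by
      fun_prop).comp continuous_subtype_val
  · exact (show Continuous fun k : Fin 6 → ℝ => k 5 by fun_prop).comp continuous_subtype_val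

lemma wv_cont : Continuous fun k : Fin 6 → ℝ => wv (k 0) (k 1) (k 2) (k 3) := by
  unfold wv Vf U
  fun_prop

lemma Bmap_cont : Continuous Bmap := by
  have hw := wv_cont
  apply Continuous.subtype_mk
  refine (PiLp.continuous_toLp 2 _).comp (continuous_pi fun i => ?_)
  fin_cases i
  · exact (show Continuous fun k : Fin 6 → ℝ =>
      k 4 * √(1 - (wv (k 0) (k 1) (k 2) (k 3)) ^ 2) * k 0 by fun_prop).comp continuous_subtype_val
  · exact (show Continuous fun k : Fin 6 → ℝ =>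
      k 4 * √(1 - (wv (k 0) (k 1) (k 2) (k 3)) ^ 2) * k 1 by fun_prop).comp continuous_subtype_val
  · exact hw.comp continuous_subtype_val

lemma e3_ext {x y : E3} (h0 : x 0 = y 0) (h1 : x 1 = y 1) (h2 : x 2 = y 2) : x = y := by
  ext i; fin_cases i
  · exact h0
  · exact h1
  · exact h2

lemma Amap_surj : Function.Surjective Amap := by
  rintro ⟨x, hx⟩
  have hx' := (mem_ball_iff x).1 hx
  have hn : nq (x 0 * exp (-(3 * x 2))) (x 1 * exp (3 * x 2)) (x 2) ≤ 1 := by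
    unfold nq
    rw [mul_pow, mul_pow, exp_sq3, exp_sq3', mul_assoc, mul_assoc, ← exp_add, ← exp_add]
    simpa using hx'
  obtain ⟨a, b, l, β, τ, hK, ha, hb⟩ := surj1 hn
  refine ⟨⟨![a, b, l, β, τ, x 2], hK⟩, ?_⟩
  apply Subtype.ext
  apply e3_ext
  · change τ * l * a * exp (3 * x 2) = x 0
    rw [ha, mul_assoc, ← exp_add]; simp
  · change τ * l * b * exp (-(3 * x 2)) = x 1
    rw [hb, mul_assoc, ← exp_add]; simp
  · rfl

lemma Bmap_surj : Function.Surjective Bmap := by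
  rintro ⟨x, hx⟩
  have hx' := (mem_ball_iff x).1 hx
  obtain ⟨a, b, l, β, τ, z, hK, hw, ha, hb⟩ := surj2 hx'
  refine ⟨⟨![a, b, l, β, τ, z], hK⟩, ?_⟩
  apply Subtype.ext
  apply e3_ext
  · change τ * √(1 - (wv a b l β) ^ 2) * a = x 0
    rw [hw, ha]
  · change τ * √(1 - (wv a b l β) ^ 2) * b = x 1
    rw [hw, hb]
  · exact hw

lemma fibres (k k' : Kset) : Amap k = Amap k' ↔ Bmap k = Bmap k' := by
  constructor
  · intro h
    have h0 : k.1 4 * k.1 2 * k.1 0 * exp (3 * k.1 5) = k'.1 4 * k'.1 2 * k'.1 0 * exp (3 * k'.1 5) :=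
      congrArg (fun x : closedBall (0 : E3) 1 => x.1 0) h
    have h1 : k.1 4 * k.1 2 * k.1 1 * exp (-(3 * k.1 5)) =
        k'.1 4 * k'.1 2 * k'.1 1 * exp (-(3 * k'.1 5)) :=
      congrArg (fun x : closedBall (0 : E3) 1 => x.1 1) h
    have h2 : k.1 5 = k'.1 5 := congrArg (fun x : closedBall (0 : E3) 1 => x.1 2) h
    rw [h2] at h0 h1
    obtain ⟨g1, g2, g3⟩ := fib1 k.2 k'.2 h2 (mul_right_cancel₀ (exp_pos _).ne' h0)
      (mul_right_cancel₀ (exp_pos _).ne' h1)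
    apply Subtype.ext
    exact e3_ext g2 g3 g1
  · intro h
    have h0 := congrArg (fun x : closedBall (0 : E3) 1 => x.1 0) h
    have h1 := congrArg (fun x : closedBall (0 : E3) 1 => x.1 1) h
    have h2 := congrArg (fun x : closedBall (0 : E3) 1 => x.1 2) h
    obtain ⟨g1, g2, g3⟩ := fib2 k.2 k'.2 h2 h0 h1
    apply Subtype.ext
    refine e3_ext ?_ ?_ g1
    · change k.1 4 * k.1 2 * k.1 0 * exp (3 * k.1 5) = k'.1 4 * k'.1 2 * k'.1 0 * exp (3 * k'.1 5)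
      rw [g1, g2]
    · change k.1 4 * k.1 2 * k.1 1 * exp (-(3 * k.1 5)) =
        k'.1 4 * k'.1 2 * k'.1 1 * exp (-(3 * k'.1 5))
      rw [g1, g3]

/-- the polynomial is topologically linear on the closed ball -/
theorem exists_Phi : ∃ Φ : closedBall (0 : E3) 1 ≃ₜ closedBall (0 : E3) 1,
    ∀ x, U (x.1 0 ^ 2) (x.1 1 ^ 2) (x.1 2) = 8630 * (Φ x).1 2 := by
  have : CompactSpace Kset := isCompact_iff_compactSpace.1 Kset_compact
  obtain ⟨Φ, hΦ⟩ := exists_homeo Amap_cont Bmap_cont Amap_surj Bmap_surj fibres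
  refine ⟨Φ, fun x => ?_⟩
  obtain ⟨k, rfl⟩ := Amap_surj x
  rw [hΦ k]
  change U ((k.1 4 * k.1 2 * k.1 0 * exp (3 * k.1 5)) ^ 2)
    ((k.1 4 * k.1 2 * k.1 1 * exp (-(3 * k.1 5))) ^ 2) (k.1 5) =
    8630 * (Vf (k.1 2 * k.1 0) (k.1 2 * k.1 1) (k.1 3) / 8630)
  rw [mul_pow, mul_pow _ (exp (-(3 * k.1 5))), exp_sq3, exp_sq3']
  have := k.2.2.2.2.2.2.2
  rw [mul_div_cancel₀ _ (by norm_num : (8630 : ℝ) ≠ 0), ← this]
  rfl

end Pool.Agent.H123R3.C1
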