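import Pool.Agent.H123R3.C1.Ball
import Pool.Agent.Helper486.TP.NewtonLap

/-! # The polynomial is harmonic; one-dimensional solutions -/

set_option autoImplicit false

open Set Real Topology Metric
open scoped ContDiff Laplacian

namespace Pool.Agent.H123R3.C1

open Pool.Agent.Helper486.TP (nl_lap_eq)

/-- the function on space -/
noncomputable def uu (β : ℝ) (X : E3) : ℝ := β + U (X 0 ^ 2) (X 1 ^ 2) (X 2)

lemma uu_smooth (β : ℝ) : ContDiff ℝ ∞ (uu β) := by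
  have hc : ∀ i : Fin 3, ContDiff ℝ ∞ fun w : E3 => w i := fun i =>
    (EuclideanSpace.proj i : E3 →L[ℝ] ℝ).contDiff
  have h0 := hc 0
  have h1 := hc 1
  have h2 := hc 2
  unfold uu U
  fun_prop

lemma second_partial {ψ : E3 → ℝ} (h : ContDiff ℝ ∞ ψ) (X v : E3) {g g' : ℝ → ℝ} {g2 : ℝ}
    (hg : ∀ t, ψ (X + t • v) = g t) (h1 : ∀ t, HasDerivAt g (g' t) t) (h2 : HasDerivAt g' g2 0) :
    fderiv ℝ (fun w => fderiv ℝ ψ w v) X v = g2 := by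
  have line : ∀ t, HasDerivAt (fun s : ℝ => X + s • v) v t := by
    intro t
    simpa using ((hasDerivAt_id t).smul_const v).const_add X
  have k1 : ∀ t, fderiv ℝ ψ (X + t • v) v = g' t := by
    intro t
    have a : HasFDerivAt ψ (fderiv ℝ ψ (X + t • v)) (X + t • v) :=
      (h.differentiable (by norm_num)).differentiableAt.hasFDerivAt
    have b := a.comp_hasDerivAt t (line t)
    have e : ψ ∘ (fun s : ℝ => X + s • v) = g := funext hg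
    rw [e] at b
    exact b.unique (h1 t)
  have hD : ContDiff ℝ ∞ fun w => fderiv ℝ ψ w v :=
    (h.fderiv_right (m := ∞) (by norm_cast)).clm_apply contDiff_const
  have a : HasFDerivAt (fun w => fderiv ℝ ψ w v) (fderiv ℝ (fun w => fderiv ℝ ψ w v) (X + (0 : ℝ)
  • v))
      (X + (0 : ℝ) • v) :=
    (hD.differentiable (by norm_num)).differentiableAt.hasFDerivAt
  have b := a.comp_hasDerivAt 0 (line 0)
  have e : (fun w => fderiv ℝ ψ w v) ∘ (fun s : ℝ => X + s • v) = g' := funext k1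
  rw [e] at b
  have := b.unique h2
  simpa using this

lemma hd8 (a0 a1 a2 a3 a4 x t : ℝ) : HasDerivAt
    (fun s => a0 + a1 * (x + s) ^ 2 + a2 * (x + s) ^ 4 + a3 * (x + s) ^ 6 + a4 * (x + s) ^ 8)
    (2 * a1 * (x + t) + 4 * a2 * (x + t) ^ 3 + 6 * a3 * (x + t) ^ 5 + 8 * a4 * (x + t) ^ 7) t := by
  have h := (hasDerivAt_id t).const_add x
  have := (((((h.pow 2).const_mul a1).const_add a0).add ((h.pow 4).const_mul a2)).add
    ((h.pow 6).const_mul a3)).add ((h.pow 8).const_mul a4)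
  refine this.congr_deriv ?_
  simp only [id]
  push_cast
  ring

lemma hd7 (a1 a2 a3 a4 x t : ℝ) : HasDerivAt
    (fun s => 2 * a1 * (x + s) + 4 * a2 * (x + s) ^ 3 + 6 * a3 * (x + s) ^ 5 + 8 * a4 * (x + s) ^ 7)
    (2 * a1 + 12 * a2 * (x + t) ^ 2 + 30 * a3 * (x + t) ^ 4 + 56 * a4 * (x + t) ^ 6) t := by
  have h := (hasDerivAt_id t).const_add x
  have := (((h.const_mul (2 * a1)).add ((h.pow 3).const_mul (4 * a2))).add
    ((h.pow 5).const_mul (6 * a3))).add ((h.pow 7).const_mul (8 * a4))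
  refine this.congr_deriv ?_
  simp only [id]
  push_cast
  ring

lemma hd5 (a0 a1 a2 a3 a4 a5 x t : ℝ) : HasDerivAt
    (fun s => a0 + a1 * (x + s) + a2 * (x + s) ^ 2 + a3 * (x + s) ^ 3 + a4 * (x + s) ^ 4 +
      a5 * (x + s) ^ 5)
    (a1 + 2 * a2 * (x + t) + 3 * a3 * (x + t) ^ 2 + 4 * a4 * (x + t) ^ 3 + 5 * a5 * (x + t) ^ 4)
    t := by
  have h := (hasDerivAt_id t).const_add x
  have := (((((h.const_mul a1).const_add a0).add ((h.pow 2).const_mul a2)).add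
    ((h.pow 3).const_mul a3)).add ((h.pow 4).const_mul a4)).add ((h.pow 5).const_mul a5)
  refine this.congr_deriv ?_
  simp only [id]
  push_cast
  ring

lemma hd4 (a1 a2 a3 a4 a5 x t : ℝ) : HasDerivAt
    (fun s => a1 + 2 * a2 * (x + s) + 3 * a3 * (x + s) ^ 2 + 4 * a4 * (x + s) ^ 3 +
      5 * a5 * (x + s) ^ 4)
    (2 * a2 + 6 * a3 * (x + t) + 12 * a4 * (x + t) ^ 2 + 20 * a5 * (x + t) ^ 3) t := by
  have h := (hasDerivAt_id t).const_add x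
  have := ((((h.const_mul (2 * a2)).const_add a1).add ((h.pow 2).const_mul (3 * a3))).add
    ((h.pow 3).const_mul (4 * a4))).add ((h.pow 4).const_mul (5 * a5))
  refine this.congr_deriv ?_
  simp only [id]
  push_cast
  ring

theorem lap_uu (β : ℝ) (X : E3) : (Δ (uu β)) X = 0 := by
  rw [nl_lap_eq (uu_smooth β), Fin.sum_univ_three]
  obtain ⟨x, hx⟩ : ∃ x, x = X 0 := ⟨_, rfl⟩
  obtain ⟨y, hy⟩ : ∃ y, y = X 1 := ⟨_, rfl⟩
  obtain ⟨z, hz⟩ : ∃ z, z = X 2 := ⟨_, rfl⟩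
  have e0 := second_partial (uu_smooth β) X (EuclideanSpace.basisFun (Fin 3) ℝ 0)
    (g := fun s => (β + (-10000 * (y ^ 2) - 10305 * (y ^ 2) * z + 1985 * (y ^ 2) ^ 2 + 6870 * z ^
    3 - 11910 * (y ^ 2) * z ^ 2 + 13767 * (y ^ 2) ^ 2 * z - 735 * (y ^ 2) ^ 3 - 8800 * (y ^ 2) *
    z ^ 3 + 11760 * (y ^ 2) ^ 2 * z ^ 2 - 3168 * (y ^ 2) ^ 3 * z + 416 * (y ^ 2) ^ 4 + 1760 * z ^
    5 - 11760 * (y ^ 2) * z ^ 4 + 10560 * (y ^ 2) ^ 2 * z ^ 3 - 5824 * (y ^ 2) ^ 3 * z ^ 2)) +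
    (10000 - 10305 * z + 11910 * z ^ 2 - 56202 * (y ^ 2) * z - 735 * (y ^ 2) ^ 2 - 8800 * z ^ 3 +
    15840 * (y ^ 2) ^ 2 * z - 5824 * (y ^ 2) ^ 3 + 11760 * z ^ 4 - 63360 * (y ^ 2) * z ^ 3 +
    87360 * (y ^ 2) ^ 2 * z ^ 2) * (x + s) ^ 2 + (-1985 + 13767 * z + 735 * (y ^ 2) - 11760 * z ^
    2 + 15840 * (y ^ 2) * z + 10560 * z ^ 3 - 87360 * (y ^ 2) * z ^ 2) * (x + s) ^ 4 + (735 -
    3168 * z + 5824 * (y ^ 2) + 5824 * z ^ 2) * (x + s) ^ 6 + (-416) * (x + s) ^ 8)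
    (by
      intro t
      unfold uu U
      simp only [PiLp.add_apply, PiLp.smul_apply, EuclideanSpace.basisFun_apply, smul_eq_mul,
        EuclideanSpace.single_apply, ← hx, ← hy, ← hz]
      simp
      ring) (fun t => hd8 _ _ _ _ _ x t) (hd7 _ _ _ _ x 0)
  have e1 := second_partial (uu_smooth β) X (EuclideanSpace.basisFun (Fin 3) ℝ 1)
    (g := fun s => (β + (10000 * (x ^ 2) - 10305 * (x ^ 2) * z - 1985 * (x ^ 2) ^ 2 + 6870 * z ^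
    3 + 11910 * (x ^ 2) * z ^ 2 + 13767 * (x ^ 2) ^ 2 * z + 735 * (x ^ 2) ^ 3 - 8800 * (x ^ 2) *
    z ^ 3 - 11760 * (x ^ 2) ^ 2 * z ^ 2 - 3168 * (x ^ 2) ^ 3 * z - 416 * (x ^ 2) ^ 4 + 1760 * z ^
    5 + 11760 * (x ^ 2) * z ^ 4 + 10560 * (x ^ 2) ^ 2 * z ^ 3 + 5824 * (x ^ 2) ^ 3 * z ^ 2)) +
    (-10000 - 10305 * z - 11910 * z ^ 2 - 56202 * (x ^ 2) * z + 735 * (x ^ 2) ^ 2 - 8800 * z ^ 3
    + 15840 * (x ^ 2) ^ 2 * z + 5824 * (x ^ 2) ^ 3 - 11760 * z ^ 4 - 63360 * (x ^ 2) * z ^ 3 -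
    87360 * (x ^ 2) ^ 2 * z ^ 2) * (y + s) ^ 2 + (1985 + 13767 * z - 735 * (x ^ 2) + 11760 * z ^
    2 + 15840 * (x ^ 2) * z + 10560 * z ^ 3 + 87360 * (x ^ 2) * z ^ 2) * (y + s) ^ 4 + (-735 -
    3168 * z - 5824 * (x ^ 2) - 5824 * z ^ 2) * (y + s) ^ 6 + (416) * (y + s) ^ 8)
    (by
      intro t
      unfold uu U
      simp only [PiLp.add_apply, PiLp.smul_apply, EuclideanSpace.basisFun_apply, smul_eq_mul,
        EuclideanSpace.single_apply, ← hx, ← hy, ← hz]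
      simp
      ring) (fun t => hd8 _ _ _ _ _ y t) (hd7 _ _ _ _ y 0)
  have e2 := second_partial (uu_smooth β) X (EuclideanSpace.basisFun (Fin 3) ℝ 2)
    (g := fun s => (β + (-10000 * (y ^ 2) + 10000 * (x ^ 2) + 1985 * (y ^ 2) ^ 2 - 1985 * (x ^ 2)
    ^ 2 - 735 * (y ^ 2) ^ 3 - 735 * (x ^ 2) * (y ^ 2) ^ 2 + 735 * (x ^ 2) ^ 2 * (y ^ 2) + 735 *
    (x ^ 2) ^ 3 + 416 * (y ^ 2) ^ 4 - 5824 * (x ^ 2) * (y ^ 2) ^ 3 + 5824 * (x ^ 2) ^ 3 * (y ^ 2)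
    - 416 * (x ^ 2) ^ 4)) + (-10305 * (y ^ 2) - 10305 * (x ^ 2) + 13767 * (y ^ 2) ^ 2 - 56202 *
    (x ^ 2) * (y ^ 2) + 13767 * (x ^ 2) ^ 2 - 3168 * (y ^ 2) ^ 3 + 15840 * (x ^ 2) * (y ^ 2) ^ 2
    + 15840 * (x ^ 2) ^ 2 * (y ^ 2) - 3168 * (x ^ 2) ^ 3) * (z + s) + (-11910 * (y ^ 2) + 11910 *
    (x ^ 2) + 11760 * (y ^ 2) ^ 2 - 11760 * (x ^ 2) ^ 2 - 5824 * (y ^ 2) ^ 3 + 87360 * (x ^ 2) *
    (y ^ 2) ^ 2 - 87360 * (x ^ 2) ^ 2 * (y ^ 2) + 5824 * (x ^ 2) ^ 3) * (z + s) ^ 2 + (6870 -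
    8800 * (y ^ 2) - 8800 * (x ^ 2) + 10560 * (y ^ 2) ^ 2 - 63360 * (x ^ 2) * (y ^ 2) + 10560 *
    (x ^ 2) ^ 2) * (z + s) ^ 3 + (-11760 * (y ^ 2) + 11760 * (x ^ 2)) * (z + s) ^ 4 + (1760) * (z
    + s) ^ 5)
    (by
      intro t
      unfold uu U
      simp only [PiLp.add_apply, PiLp.smul_apply, EuclideanSpace.basisFun_apply, smul_eq_mul,
        EuclideanSpace.single_apply, ← hx, ← hy, ← hz]
      simp
      ring) (fun t => hd5 _ _ _ _ _ _ z t) (hd4 _ _ _ _ _ z 0)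
  rw [e0, e1, e2]
  ring

end Pool.Agent.H123R3.C1
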