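import Pool.Agent.H123R3.C1.Harm

/-! # One-dimensional solutions and the non-existence of near-isometric representations -/

set_option autoImplicit false

open Set Real Topology Metric MeasureTheory Filter
open scoped ContDiff Laplacian

namespace Pool.Agent.H123R3.C1

/-- a one-dimensional solution which is affine, with prescribed slope, below the support -/
lemma exists_V {f : ℝ → ℝ} (hf : Continuous f) (hs : HasCompactSupport f) (h0 : ∀ t, 0 ≤ f t)
    {α : ℝ} (hα : 0 < α) : ∃ (β : ℝ) (V V' : ℝ → ℝ), (∀ v ≤ β + α, f v = 0) ∧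
      (∀ s ≤ 1, V s = β + α * s) ∧ (∀ s, HasDerivAt V (V' s) s) ∧
      (∀ s, HasDerivAt V' (f (V s)) s) := by
  obtain ⟨L, hL⟩ := hs.isCompact.isBounded.subset_closedBall (0 : ℝ)
  set c : ℝ := -L - 1 with hc
  have hz : ∀ v ≤ c, f v = 0 := by
    intro v hv
    by_contra hne
    have := hL (subset_tsupport f hne)
    rw [mem_closedBall, dist_zero_right, Real.norm_eq_abs] at this
    have := (abs_le.1 this).1
    linarith
  set F : ℝ → ℝ := fun v => ∫ t in c..v, f t with hF
  have hFd : ∀ v, HasDerivAt F (f v) v := fun v =>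
    intervalIntegral.integral_hasDerivAt_right (hf.intervalIntegrable _ _)
      hf.aestronglyMeasurable.stronglyMeasurableAtFilter hf.continuousAt
  have hF1 : ∀ v ≤ c, F v = 0 := by
    intro v hv
    rw [hF]
    simp only
    rw [intervalIntegral.integral_symm, intervalIntegral.integral_of_le hv]
    rw [setIntegral_congr_fun (g := fun _ => (0 : ℝ)) measurableSet_Ioc (fun t ht => hz t ht.2)]
    simp
  have hFm : Monotone F := monotone_of_deriv_nonneg (fun v => (hFd v).differentiableAt)
    (fun v => by rw [(hFd v).deriv]; exact h0 v)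
  have hF0 : ∀ v, 0 ≤ F v := by
    intro v
    rcases le_total v c with h | h
    · rw [hF1 v h]
    · rw [← hF1 c le_rfl]; exact hFm h
  have hint : Integrable f := hf.integrable_of_hasCompactSupport hs
  have hFb : ∀ v, F v ≤ ∫ t, f t := by
    intro v
    rcases le_total v c with h | h
    · rw [hF1 v h]; exact integral_nonneg h0
    · rw [hF]
      simp only
      rw [intervalIntegral.integral_of_le h]
      exact setIntegral_le_integral hint (Eventually.of_forall h0)
  set g : ℝ → ℝ := fun v => √(α ^ 2 + 2 * F v) with hg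
  have hgp : ∀ v, 0 < α ^ 2 + 2 * F v := fun v => by have := hF0 v; positivity
  have hg0 : ∀ v, 0 < g v := fun v => Real.sqrt_pos.2 (hgp v)
  have hgd : ∀ v, HasDerivAt g (f v / g v) v := by
    intro v
    have := (((hFd v).const_mul 2).const_add (α ^ 2)).sqrt (hgp v).ne'
    refine this.congr_deriv ?_
    rw [mul_div_mul_left _ _ (two_ne_zero)]
  have hgc : Continuous g := continuous_iff_continuousAt.2 fun v => (hgd v).continuousAt
  have hg1 : ∀ v ≤ c, g v = α := by
    intro v hv
    rw [hg]; simp only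
    rw [hF1 v hv, mul_zero, add_zero, Real.sqrt_sq hα.le]
  set G := √(α ^ 2 + 2 * ∫ t, f t) with hG
  have hgG : ∀ v, g v ≤ G := fun v => Real.sqrt_le_sqrt (by linarith [hFb v])
  have hGp : 0 < G := (hg0 0).trans_le (hgG 0)
  have hic : Continuous fun v => (g v)⁻¹ := hgc.inv₀ fun v => (hg0 v).ne'
  set H : ℝ → ℝ := fun v => 1 + ∫ t in c..v, (g t)⁻¹ with hH
  have hHd : ∀ v, HasDerivAt H (g v)⁻¹ v := fun v =>
    (intervalIntegral.integral_hasDerivAt_right (hic.intervalIntegrable _ _)
      hic.aestronglyMeasurable.stronglyMeasurableAtFilter hic.continuousAt).const_add 1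
  have hHm : StrictMono H := strictMono_of_deriv_pos fun v => by
    rw [(hHd v).deriv]; exact inv_pos.2 (hg0 v)
  have hHc : Continuous H := continuous_iff_continuousAt.2 fun v => (hHd v).continuousAt
  have hH1 : ∀ v ≤ c, H v = 1 + (v - c) / α := by
    intro v hv
    rw [hH]
    simp only
    rw [intervalIntegral.integral_symm, intervalIntegral.integral_of_le hv]
    rw [setIntegral_congr_fun (g := fun _ => α⁻¹) measurableSet_Ioc
      (fun t ht => by simp only [hg1 t ht.2])]
    simp
    rw [max_eq_left (by linarith)]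
    field_simp
    ring
  have hH2 : ∀ v, c ≤ v → 1 + (v - c) / G ≤ H v := by
    intro v hv
    rw [hH]
    simp only
    have e : (v - c) / G = ∫ t in c..v, G⁻¹ := by
      rw [intervalIntegral.integral_const, smul_eq_mul]; rfl
    rw [e]
    have := intervalIntegral.integral_mono_on hv (f := fun _ => G⁻¹) (g := fun t => (g t)⁻¹)
      (intervalIntegrable_const : IntervalIntegrable (fun _ => G⁻¹) volume c v)
      (hic.intervalIntegrable _ _)
      (fun t _ => inv_anti₀ (hg0 t) (hgG t))
    linarith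
  have hHs : Function.Surjective H := by
    apply hHc.surjective
    · apply tendsto_atTop_mono' _ (f₁ := fun v => 1 + (v - c) / G)
      · filter_upwards [eventually_ge_atTop c] with v hv using hH2 v hv
      · apply tendsto_atTop_add_const_left
        exact (tendsto_atTop_add_const_right _ (-c) tendsto_id).atTop_div_const hGp
    · have : Tendsto (fun v => 1 + (v - c) / α) atBot atBot := by
        apply tendsto_atBot_add_const_left
        exact (tendsto_atBot_add_const_right _ (-c) tendsto_id).atBot_div_const hα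
      refine this.congr' ?_
      filter_upwards [eventually_le_atBot c] with v hv using (hH1 v hv).symm
  set e := hHm.orderIsoOfSurjective H hHs with he
  have he1 : ∀ s, H (e.symm s) = s := fun s => e.apply_symm_apply s
  have he2 : ∀ v, e.symm (H v) = v := fun v => e.symm_apply_apply v
  have hec : Continuous e.symm := e.symm.continuous
  have hVd : ∀ s, HasDerivAt (fun s => e.symm s) (g (e.symm s)) s := by
    intro s
    have := HasDerivAt.of_local_left_inverse (f := H) (g := fun s => e.symm s) (a := s)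
      hec.continuousAt (hHd _) (inv_pos.2 (hg0 _)).ne' (Eventually.of_forall he1)
    simpa using this
  refine ⟨c - α, fun s => e.symm s, fun s => g (e.symm s), ?_, ?_, hVd, ?_⟩
  · intro v hv
    exact hz v (by linarith)
  · intro s hs
    have hle : c - α + α * s ≤ c := by nlinarith
    have : H (c - α + α * s) = s := by
      rw [hH1 _ hle]
      field_simp
      ring
    have h2 := he2 (c - α + α * s)
    rw [this] at h2
    exact h2
  · intro s
    have := (hgd (e.symm s)).comp s (hVd s)
    refine this.congr_deriv ?_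
    exact div_mul_cancel₀ _ (hg0 _).ne'

/-- four nearly orthogonal vectors do not fit in space -/
lemma no_four {v : Fin 4 → E3} {r : ℝ} (hr : 0 < r) (h1 : ∀ i, 98 / 100 * r ≤ inner ℝ (v i) (v i))
    (h2 : ∀ i j, i ≠ j → |inner ℝ (v i) (v j)| ≤ 4 / 100 * r) : False := by
  have hli : LinearIndependent ℝ v := by
    rw [Fintype.linearIndependent_iff]
    intro c hc
    obtain ⟨i, hi⟩ := Finite.exists_max fun i => |c i|
    have key : c i * inner ℝ (v i) (v i) = -∑ j ∈ Finset.univ.erase i, c j * inner ℝ (v i) (v j) := by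
      have h3 : inner ℝ (v i) (∑ j, c j • v j) = 0 := by rw [hc, inner_zero_right]
      rw [inner_sum] at h3
      simp only [inner_smul_right] at h3
      rw [← Finset.add_sum_erase _ _ (Finset.mem_univ i)] at h3
      linarith
    have hb : |c i| * (98 / 100 * r) ≤ |c i| * (12 / 100 * r) := by
      calc |c i| * (98 / 100 * r) ≤ |c i| * inner ℝ (v i) (v i) :=
            mul_le_mul_of_nonneg_left (h1 i) (abs_nonneg _)
        _ = |c i * inner ℝ (v i) (v i)| := by
            rw [abs_mul, abs_of_nonneg (real_inner_self_nonneg (x := v i))]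
        _ = |∑ j ∈ Finset.univ.erase i, c j * inner ℝ (v i) (v j)| := by rw [key, abs_neg]
        _ ≤ ∑ j ∈ Finset.univ.erase i, |c j * inner ℝ (v i) (v j)| := Finset.abs_sum_le_sum_abs _ _
        _ ≤ ∑ j ∈ Finset.univ.erase i, |c i| * (4 / 100 * r) := by
            apply Finset.sum_le_sum
            intro j hj
            rw [abs_mul]
            exact mul_le_mul (hi j) (h2 i j (Finset.ne_of_mem_erase hj).symm) (abs_nonneg _)
              (abs_nonneg _)
        _ = |c i| * (12 / 100 * r) := by
            rw [Finset.sum_const, Finset.card_erase_of_mem (Finset.mem_univ i)]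
            simp
            ring
    have h4 : |c i| = 0 := by
      by_contra hne
      have hp : 0 < |c i| := lt_of_le_of_ne (abs_nonneg _) (Ne.symm hne)
      have := le_of_mul_le_mul_left hb hp
      linarith
    intro j
    have := hi j
    rw [h4] at this
    exact abs_nonpos_iff.1 this
  have := hli.fintype_card_le_finrank
  simp at this

lemma uu_zero (β : ℝ) : uu β 0 = β := by unfold uu U; simp

/-- no near-isometric representation near the centre -/
theorem no_rep {f : ℝ → ℝ} (h0 : ∀ t, 0 ≤ f t) {β δ : ℝ} (hδ : 0 < δ) {V V' : ℝ → ℝ}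
    (hV : ∀ s, HasDerivAt V (V' s) s) (hV' : ∀ s, HasDerivAt V' (f (V s)) s) {a : E3}
    (ha : ‖a‖ = 1) {Φ : E3 → E3} (hΦ : ∀ x ∈ ball (0 : E3) δ, ∀ y ∈ ball (0 : E3) δ,
      99 / 100 * ‖x - y‖ ≤ ‖Φ x - Φ y‖ ∧ ‖Φ x - Φ y‖ ≤ 101 / 100 * ‖x - y‖)
    (hrep : ∀ x ∈ ball (0 : E3) δ, uu β x = V (inner ℝ (Φ x) a)) : False := by
  set s0 := inner ℝ (Φ 0) a with hs0
  have h0b : (0 : E3) ∈ ball (0 : E3) δ := mem_ball_self hδ
  have hVs : V s0 = β := by rw [hs0, ← hrep 0 h0b, uu_zero]
  have hc0 : V' s0 = 0 := by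
    by_contra hc
    set c := |V' s0| with hcdef
    have hcp : 0 < c := abs_pos.2 hc
    have hlo := (hasDerivAt_iff_isLittleO.1 (hV s0)).def (show 0 < c / 2 by positivity)
    obtain ⟨η, hη, hη2⟩ := Metric.eventually_nhds_iff.1 hlo
    have hgrow : ∀ σ, |σ| < η → c / 2 * |σ| ≤ |V (s0 + σ) - V s0| := by
      intro σ hσ
      have h3 := @hη2 (s0 + σ) (by rw [Real.dist_eq]; simpa using hσ)
      simp only [Real.norm_eq_abs, smul_eq_mul, add_sub_cancel_left] at h3
      have h4 : |σ * V' s0| = c * |σ| := by rw [abs_mul, mul_comm]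
      have h5 : |σ * V' s0| ≤ |V (s0 + σ) - V s0 - σ * V' s0| + |V (s0 + σ) - V s0| := by
        have h6 := abs_sub_abs_le_abs_sub (σ * V' s0) (V (s0 + σ) - V s0)
        have h7 := abs_sub_comm (σ * V' s0) (V (s0 + σ) - V s0)
        linarith
      linarith
    set r := min (min (δ / 2) (1 / 2)) (min (η / 2) (c / 1000000)) with hr
    have hr0 : 0 < r := by positivity
    have hr1 : r ≤ δ / 2 := (min_le_left _ _).trans (min_le_left _ _)
    have hr2 : r ≤ 1 / 2 := (min_le_left _ _).trans (min_le_right _ _)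
    have hr3 : r ≤ η / 2 := (min_le_right _ _).trans (min_le_left _ _)
    have hr4 : r ≤ c / 1000000 := (min_le_right _ _).trans (min_le_right _ _)
    set b : Fin 3 → E3 := fun i => EuclideanSpace.single i r with hb
    have hbn : ∀ i, ‖b i‖ = r := by
      intro i
      rw [hb]
      simp [abs_of_pos hr0]
    have hbb : ∀ i, b i ∈ ball (0 : E3) δ := by
      intro i
      rw [mem_ball_zero_iff, hbn]; linarith
    have hbd : ∀ i j, i ≠ j → ‖b i - b j‖ ^ 2 = 2 * r ^ 2 := by
      intro i j hij
      rw [@norm_sub_sq_real, hbn, hbn]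
      have : inner ℝ (b i) (b j) = 0 := by
        rw [hb]
        simp only [EuclideanSpace.inner_single_left]
        simp [hij]
      rw [this]; ring
    set w : Fin 3 → E3 := fun i => Φ (b i) - Φ 0 with hw
    have hwn : ∀ i, 99 / 100 * r ≤ ‖w i‖ ∧ ‖w i‖ ≤ 101 / 100 * r := by
      intro i
      have := hΦ (b i) (hbb i) 0 h0b
      rw [sub_zero, hbn] at this
      exact this
    have hσ : ∀ i, |inner ℝ (w i) a| ≤ 4 / 100 * r := by
      intro i
      have h3 : |inner ℝ (w i) a| ≤ ‖w i‖ := by
        have := abs_real_inner_le_norm (w i) a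
        rwa [ha, mul_one] at this
      have h4 : |inner ℝ (w i) a| < η := by
        have := (hwn i).2
        nlinarith
      have h5 := hgrow _ h4
      have h6 : s0 + inner ℝ (w i) a = inner ℝ (Φ (b i)) a := by
        rw [hw]; simp only [inner_sub_left]; rw [hs0]; ring
      rw [h6, ← hrep _ (hbb i), hVs] at h5
      have h7 : |uu β (b i) - β| ≤ 20000 * r ^ 2 := by
        have hr2' : r ^ 2 ≤ 1 := by nlinarith
        have p2 : 0 ≤ r ^ 2 := by positivity
        have p4 : r ^ 4 ≤ r ^ 2 := by nlinarith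
        have p4' : 0 ≤ r ^ 4 := by positivity
        have p6 : r ^ 6 ≤ r ^ 2 := by
          have : r ^ 6 = r ^ 4 * r ^ 2 := by ring
          nlinarith
        have p6' : 0 ≤ r ^ 6 := by positivity
        have p8 : r ^ 8 ≤ r ^ 2 := by
          have : r ^ 8 = r ^ 6 * r ^ 2 := by ring
          nlinarith
        have p8' : 0 ≤ r ^ 8 := by positivity
        have p3 : r ^ 3 ≤ r ^ 2 := by nlinarith
        have p3' : 0 ≤ r ^ 3 := by positivity
        have p5 : r ^ 5 ≤ r ^ 2 := by
          have : r ^ 5 = r ^ 3 * r ^ 2 := by ring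
          nlinarith
        have p5' : 0 ≤ r ^ 5 := by positivity
        have hi : i = 0 ∨ i = 1 ∨ i = 2 := by fin_cases i <;> simp
        rcases hi with rfl | rfl | rfl
        · have e : uu β (b 0) - β = 10000 * r ^ 2 - 1985 * r ^ 4 + 735 * r ^ 6 - 416 * r ^ 8 := by
            rw [hb]; unfold uu U
            simp
            ring
          rw [e, abs_le]; constructor <;> linarith
        · have e : uu β (b 1) - β = -(10000 * r ^ 2 - 1985 * r ^ 4 + 735 * r ^ 6 - 416 * r ^ 8) := by
            rw [hb]; unfold uu U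
            simp
            ring
          rw [e, abs_le]; constructor <;> linarith
        · have e : uu β (b 2) - β = 6870 * r ^ 3 + 1760 * r ^ 5 := by
            rw [hb]; unfold uu U
            simp
          rw [e, abs_le]; constructor <;> linarith
      have h8 : c / 2 * |inner ℝ (w i) a| ≤ 20000 * r ^ 2 := h5.trans h7
      have h9 : 20000 * r ^ 2 ≤ c / 2 * (4 / 100 * r) := by nlinarith
      exact le_of_mul_le_mul_left (h8.trans h9) (by positivity)
    refine no_four (v := ![w 0, w 1, w 2, r • a]) (r := r ^ 2) (by positivity) ?_ ?_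
    · have k1 : ∀ i, 98 / 100 * r ^ 2 ≤ inner ℝ (w i) (w i) := by
        intro i
        rw [real_inner_self_eq_norm_sq]
        have := (hwn i).1
        have h3 : (99 / 100 * r) ^ 2 ≤ ‖w i‖ ^ 2 := pow_le_pow_left₀ (by positivity) this 2
        nlinarith [sq_nonneg r]
      have k2 : 98 / 100 * r ^ 2 ≤ inner ℝ (r • a) (r • a) := by
        rw [real_inner_self_eq_norm_sq, norm_smul, ha, mul_one, Real.norm_eq_abs, sq_abs]
        nlinarith [sq_nonneg r]
      intro i
      fin_cases i
      · exact k1 0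
      · exact k1 1
      · exact k1 2
      · exact k2
    · have k1 : ∀ i j, i ≠ j → |inner ℝ (w i) (w j)| ≤ 4 / 100 * r ^ 2 := by
        intro i j hij
        have h3 : ‖w i - w j‖ ^ 2 = ‖w i‖ ^ 2 - 2 * inner ℝ (w i) (w j) + ‖w j‖ ^ 2 :=
          norm_sub_sq_real _ _
        have h4 : w i - w j = Φ (b i) - Φ (b j) := by rw [hw]; simp
        have h5 := hΦ (b i) (hbb i) (b j) (hbb j)
        rw [← h4] at h5
        have g1 : (99 / 100 * ‖b i - b j‖) ^ 2 ≤ ‖w i - w j‖ ^ 2 :=
          pow_le_pow_left₀ (by positivity) h5.1 2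
        have g2 : ‖w i - w j‖ ^ 2 ≤ (101 / 100 * ‖b i - b j‖) ^ 2 :=
          pow_le_pow_left₀ (norm_nonneg _) h5.2 2
        rw [mul_pow, hbd i j hij] at g1 g2
        have g3 : (99 / 100 * r) ^ 2 ≤ ‖w i‖ ^ 2 := pow_le_pow_left₀ (by positivity) (hwn i).1 2
        have g4 : ‖w i‖ ^ 2 ≤ (101 / 100 * r) ^ 2 := pow_le_pow_left₀ (norm_nonneg _) (hwn i).2 2
        have g5 : (99 / 100 * r) ^ 2 ≤ ‖w j‖ ^ 2 := pow_le_pow_left₀ (by positivity) (hwn j).1 2
        have g6 : ‖w j‖ ^ 2 ≤ (101 / 100 * r) ^ 2 := pow_le_pow_left₀ (norm_nonneg _) (hwn j).2 2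
        rw [abs_le]
        constructor <;> nlinarith
      have k2 : ∀ i, |inner ℝ (w i) (r • a)| ≤ 4 / 100 * r ^ 2 := by
        intro i
        rw [inner_smul_right, abs_mul, abs_of_pos hr0]
        have := mul_le_mul_of_nonneg_left (hσ i) hr0.le
        nlinarith
      have k3 : ∀ i, |inner ℝ (r • a) (w i)| ≤ 4 / 100 * r ^ 2 := by
        intro i
        rw [real_inner_comm]; exact k2 i
      intro i j hij
      fin_cases i <;> fin_cases j
      · exact absurd rfl hij
      · exact k1 0 1 (by decide)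
      · exact k1 0 2 (by decide)
      · exact k2 0
      · exact k1 1 0 (by decide)
      · exact absurd rfl hij
      · exact k1 1 2 (by decide)
      · exact k2 1
      · exact k1 2 0 (by decide)
      · exact k1 2 1 (by decide)
      · exact absurd rfl hij
      · exact k2 2
      · exact k3 0
      · exact k3 1
      · exact k3 2
      · exact absurd rfl hij
  have hm : Monotone V' := monotone_of_deriv_nonneg (fun v => (hV' v).differentiableAt)
    (fun v => by rw [(hV' v).deriv]; exact h0 _)
  have hmin : ∀ s, V s0 ≤ V s := by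
    intro s
    have hVc : Continuous V := continuous_iff_continuousAt.2 fun v => (hV v).continuousAt
    rcases le_total s0 s with h | h
    · have : MonotoneOn V (Ici s0) := monotoneOn_of_deriv_nonneg (convex_Ici _) hVc.continuousOn
        (fun v _ => (hV v).differentiableAt.differentiableWithinAt) (fun v hv => by
          rw [interior_Ici] at hv
          rw [(hV v).deriv, ← hc0]; exact hm hv.le)
      exact this self_mem_Ici h h
    · have : AntitoneOn V (Iic s0) := antitoneOn_of_deriv_nonpos (convex_Iic _) hVc.continuousOn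
        (fun v _ => (hV v).differentiableAt.differentiableWithinAt) (fun v hv => by
          rw [interior_Iic] at hv
          rw [(hV v).deriv, ← hc0]; exact hm hv.le)
      exact this h self_mem_Iic h
  have hx : EuclideanSpace.single (2 : Fin 3) (-(δ / 2)) ∈ ball (0 : E3) δ := by
    rw [mem_ball_zero_iff]
    simp [abs_of_pos hδ]
    linarith
  have h1 := hrep _ hx
  have h2 := hmin (inner ℝ (Φ (EuclideanSpace.single (2 : Fin 3) (-(δ / 2)))) a)
  rw [← h1, hVs] at h2
  have e : uu β (EuclideanSpace.single (2 : Fin 3) (-(δ / 2))) =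
      β - (6870 * (δ / 2) ^ 3 + 1760 * (δ / 2) ^ 5) := by
    unfold uu U
    simp
    ring
  rw [e] at h2
  have : 0 < 6870 * (δ / 2) ^ 3 + 1760 * (δ / 2) ^ 5 := by positivity
  linarith

theorem main (f : ℝ → ℝ) (hf : Continuous f) (hs : HasCompactSupport f) (h0 : ∀ t, 0 ≤ f t) :
    ∃ u : E3 → ℝ, ContDiff ℝ ∞ u ∧ (∀ x ∈ ball (0 : E3) 1, (Δ u) x = f (u x)) ∧
      (∃ (V V' : ℝ → ℝ) (a : E3) (Φ : closedBall (0 : E3) 1 ≃ₜ closedBall (0 : E3) 1),
        (∀ s, HasDerivAt V (V' s) s) ∧ (∀ s, HasDerivAt V' (f (V s)) s) ∧ ‖a‖ = 1 ∧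
        ∀ x : closedBall (0 : E3) 1, u x = V (inner ℝ (Φ x : E3) a)) ∧
      ¬ ∃ (δ : ℝ) (V V' : ℝ → ℝ) (a : E3) (Φ : E3 → E3), 0 < δ ∧
        (∀ s, HasDerivAt V (V' s) s) ∧ (∀ s, HasDerivAt V' (f (V s)) s) ∧ ‖a‖ = 1 ∧
        (∀ x ∈ ball (0 : E3) δ, ∀ y ∈ ball (0 : E3) δ,
          99 / 100 * ‖x - y‖ ≤ ‖Φ x - Φ y‖ ∧ ‖Φ x - Φ y‖ ≤ 101 / 100 * ‖x - y‖) ∧
        ∀ x ∈ ball (0 : E3) δ, u x = V (inner ℝ (Φ x) a) := by
  obtain ⟨β, V, V', hz, hV1, hV, hV'⟩ := exists_V hf hs h0 (α := 8630) (by norm_num)
  obtain ⟨Φ, hΦ⟩ := exists_Phi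
  have hle : ∀ x : closedBall (0 : E3) 1, (Φ x).1 2 ≤ 1 := by
    intro x
    have := (mem_ball_iff _).1 (Φ x).2
    nlinarith [sq_nonneg ((Φ x).1 0), sq_nonneg ((Φ x).1 1)]
  have hu : ∀ x : closedBall (0 : E3) 1, uu β x = β + 8630 * (Φ x).1 2 := by
    intro x
    unfold uu
    rw [hΦ x]
  refine ⟨uu β, uu_smooth β, fun x hx => ?_, ⟨V, V', EuclideanSpace.single 2 1, Φ, hV, hV',
    by simp, fun x => ?_⟩, ?_⟩
  · rw [lap_uu]
    have h1 := hu ⟨x, ball_subset_closedBall hx⟩
    rw [hz (uu β x)]
    have h2 := hle ⟨x, ball_subset_closedBall hx⟩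
    change uu β x = _ at h1
    rw [h1]
    linarith
  · have e : inner ℝ (Φ x : E3) (EuclideanSpace.single 2 1) = (Φ x).1 2 := by
      rw [EuclideanSpace.inner_single_right]
      simp
    rw [e, hV1 _ (hle x), hu x]
  · rintro ⟨δ, W, W', a, Ψ, hδ, hW, hW', ha, hΨ, hrep⟩
    exact no_rep h0 hδ hW hW' ha hΨ hrep

end Pool.Agent.H123R3.C1
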