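import Mathlib

/-! # The harmonic polynomial and its positivity properties -/

set_option autoImplicit false

namespace Pool.Agent.H123R3.C1

/-- the polynomial in `p = x ^ 2`, `q = y ^ 2`, `z` -/
def U (p q z : ℝ) : ℝ :=
    -10000 * q + 10000 * p - 10305 * q * z + 1985 * q ^ 2 - 10305 * p * z - 1985 * p ^ 2 +
    6870 * z ^ 3 - 11910 * q * z ^ 2 + 13767 * q ^ 2 * z - 735 * q ^ 3 + 11910 * p * z ^ 2
    - 56202 * p * q * z - 735 * p * q ^ 2 + 13767 * p ^ 2 * z + 735 * p ^ 2 * q + 735 * p ^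
    3 - 8800 * q * z ^ 3 + 11760 * q ^ 2 * z ^ 2 - 3168 * q ^ 3 * z + 416 * q ^ 4 - 8800 *
    p * z ^ 3 + 15840 * p * q ^ 2 * z - 5824 * p * q ^ 3 - 11760 * p ^ 2 * z ^ 2 + 15840 *
    p ^ 2 * q * z - 3168 * p ^ 3 * z + 5824 * p ^ 3 * q - 416 * p ^ 4 + 1760 * z ^ 5 -
    11760 * q * z ^ 4 + 10560 * q ^ 2 * z ^ 3 - 5824 * q ^ 3 * z ^ 2 + 11760 * p * z ^ 4 -
    63360 * p * q * z ^ 3 + 87360 * p * q ^ 2 * z ^ 2 + 10560 * p ^ 2 * z ^ 3 - 87360 * p ^
    2 * q * z ^ 2 + 5824 * p ^ 3 * z ^ 2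

/-- derivative in `p` -/
def Up (p q z : ℝ) : ℝ :=
    10000 - 10305 * z - 3970 * p + 11910 * z ^ 2 - 56202 * q * z - 735 * q ^ 2 + 27534 * p
    * z + 1470 * p * q + 2205 * p ^ 2 - 8800 * z ^ 3 + 15840 * q ^ 2 * z - 5824 * q ^ 3 -
    23520 * p * z ^ 2 + 31680 * p * q * z - 9504 * p ^ 2 * z + 17472 * p ^ 2 * q - 1664 * p
    ^ 3 + 11760 * z ^ 4 - 63360 * q * z ^ 3 + 87360 * q ^ 2 * z ^ 2 + 21120 * p * z ^ 3 -
    174720 * p * q * z ^ 2 + 17472 * p ^ 2 * z ^ 2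

/-- derivative in `q` -/
def Uq (p q z : ℝ) : ℝ :=
    -10000 - 10305 * z + 3970 * q - 11910 * z ^ 2 + 27534 * q * z - 2205 * q ^ 2 - 56202 *
    p * z - 1470 * p * q + 735 * p ^ 2 - 8800 * z ^ 3 + 23520 * q * z ^ 2 - 9504 * q ^ 2 *
    z + 1664 * q ^ 3 + 31680 * p * q * z - 17472 * p * q ^ 2 + 15840 * p ^ 2 * z + 5824 * p
    ^ 3 - 11760 * z ^ 4 + 21120 * q * z ^ 3 - 17472 * q ^ 2 * z ^ 2 - 63360 * p * z ^ 3 +
    174720 * p * q * z ^ 2 - 87360 * p ^ 2 * z ^ 2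

/-- derivative in `z` -/
def Uz (p q z : ℝ) : ℝ :=
    -10305 * q - 10305 * p + 20610 * z ^ 2 - 23820 * q * z + 13767 * q ^ 2 + 23820 * p * z
    - 56202 * p * q + 13767 * p ^ 2 - 26400 * q * z ^ 2 + 23520 * q ^ 2 * z - 3168 * q ^ 3
    - 26400 * p * z ^ 2 + 15840 * p * q ^ 2 - 23520 * p ^ 2 * z + 15840 * p ^ 2 * q - 3168
    * p ^ 3 + 8800 * z ^ 4 - 47040 * q * z ^ 3 + 31680 * q ^ 2 * z ^ 2 - 11648 * q ^ 3 * z
    + 47040 * p * z ^ 3 - 190080 * p * q * z ^ 2 + 174720 * p * q ^ 2 * z + 31680 * p ^ 2 *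
    z ^ 2 - 174720 * p ^ 2 * q * z + 11648 * p ^ 3 * z

theorem hasDerivAt_U {p q z : ℝ → ℝ} {p' q' z' t : ℝ} (hp : HasDerivAt p p' t)
    (hq : HasDerivAt q q' t) (hz : HasDerivAt z z' t) :
    HasDerivAt (fun s => U (p s) (q s) (z s))
      (Up (p t) (q t) (z t) * p' + Uq (p t) (q t) (z t) * q' + Uz (p t) (q t) (z t) * z') t := by
  have h := (((((((((((((((((((((((((((((((((((((((hq.pow 1).const_mul (-10000)).add
      ((hp.pow 1).const_mul (10000))).add
      (((hq.pow 1).mul (hz.pow 1)).const_mul (-10305))).add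
      ((hq.pow 2).const_mul (1985))).add
      (((hp.pow 1).mul (hz.pow 1)).const_mul (-10305))).add
      ((hp.pow 2).const_mul (-1985))).add
      ((hz.pow 3).const_mul (6870))).add
      (((hq.pow 1).mul (hz.pow 2)).const_mul (-11910))).add
      (((hq.pow 2).mul (hz.pow 1)).const_mul (13767))).add
      ((hq.pow 3).const_mul (-735))).add
      (((hp.pow 1).mul (hz.pow 2)).const_mul (11910))).add
      ((((hp.pow 1).mul (hq.pow 1)).mul (hz.pow 1)).const_mul (-56202))).add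
      (((hp.pow 1).mul (hq.pow 2)).const_mul (-735))).add
      (((hp.pow 2).mul (hz.pow 1)).const_mul (13767))).add
      (((hp.pow 2).mul (hq.pow 1)).const_mul (735))).add
      ((hp.pow 3).const_mul (735))).add
      (((hq.pow 1).mul (hz.pow 3)).const_mul (-8800))).add
      (((hq.pow 2).mul (hz.pow 2)).const_mul (11760))).add
      (((hq.pow 3).mul (hz.pow 1)).const_mul (-3168))).add
      ((hq.pow 4).const_mul (416))).add
      (((hp.pow 1).mul (hz.pow 3)).const_mul (-8800))).add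
      ((((hp.pow 1).mul (hq.pow 2)).mul (hz.pow 1)).const_mul (15840))).add
      (((hp.pow 1).mul (hq.pow 3)).const_mul (-5824))).add
      (((hp.pow 2).mul (hz.pow 2)).const_mul (-11760))).add
      ((((hp.pow 2).mul (hq.pow 1)).mul (hz.pow 1)).const_mul (15840))).add
      (((hp.pow 3).mul (hz.pow 1)).const_mul (-3168))).add
      (((hp.pow 3).mul (hq.pow 1)).const_mul (5824))).add
      ((hp.pow 4).const_mul (-416))).add
      ((hz.pow 5).const_mul (1760))).add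
      (((hq.pow 1).mul (hz.pow 4)).const_mul (-11760))).add
      (((hq.pow 2).mul (hz.pow 3)).const_mul (10560))).add
      (((hq.pow 3).mul (hz.pow 2)).const_mul (-5824))).add
      (((hp.pow 1).mul (hz.pow 4)).const_mul (11760))).add
      ((((hp.pow 1).mul (hq.pow 1)).mul (hz.pow 3)).const_mul (-63360))).add
      ((((hp.pow 1).mul (hq.pow 2)).mul (hz.pow 2)).const_mul (87360))).add
      (((hp.pow 2).mul (hz.pow 3)).const_mul (10560))).add
      ((((hp.pow 2).mul (hq.pow 1)).mul (hz.pow 2)).const_mul (-87360))).add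
      (((hp.pow 3).mul (hz.pow 2)).const_mul (5824)))
  refine (h.congr_deriv ?_).congr_of_eventuallyEq (Filter.Eventually.of_forall fun s => ?_)
  · simp only [Up, Uq, Uz, Pi.add_apply, Pi.mul_apply, Pi.pow_apply]
    push_cast
    ring
  · simp only [U, Pi.add_apply, Pi.mul_apply, Pi.pow_apply]
    ring

/-- auxiliary polynomial -/
def c0 (z : ℝ) : ℝ :=
    294 + 1194 * z + 2715 * z ^ 2 - 14488 * z ^ 3 - 31485 * z ^ 4 + 30714 * z ^ 5 + 96096 *
    z ^ 6 + 49920 * z ^ 7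

lemma c0_pos {z : ℝ} (h1 : -1 ≤ z) (h2 : z ≤ 1) : 0 < c0 z := by
  rcases le_total z (-1 / 2) with h3 | h3
  · have ha : 0 ≤ z - (-1) := by linarith
    have hb : 0 ≤ (-1 / 2) - z := by linarith
    have e : c0 z = 1 + (71424 * (((-1 / 2) - z) ^ 8) +
        1169664 * ((z - (-1)) ^ 1 * ((-1 / 2) - z) ^ 7) +
        2555712 * ((z - (-1)) ^ 2 * ((-1 / 2) - z) ^ 6) +
        2574976 * ((z - (-1)) ^ 3 * ((-1 / 2) - z) ^ 5) +
        2624720 * ((z - (-1)) ^ 4 * ((-1 / 2) - z) ^ 4) +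
        2944528 * ((z - (-1)) ^ 5 * ((-1 / 2) - z) ^ 3) +
        2049040 * ((z - (-1)) ^ 6 * ((-1 / 2) - z) ^ 2) +
        706352 * ((z - (-1)) ^ 7 * ((-1 / 2) - z) ^ 1) +
        94624 * ((z - (-1)) ^ 8)) := by
      unfold c0; ring
    rw [e]; positivity
  ·
    rcases le_total z 0 with h4 | h4
    · have ha : 0 ≤ z - (-1 / 2) := by linarith
      have hb : 0 ≤ 0 - z := by linarith
      have e : c0 z = 1 + (94624 * ((0 - z) ^ 8) +
          807632 * ((z - (-1 / 2)) ^ 1 * (0 - z) ^ 7) +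
          2758000 * ((z - (-1 / 2)) ^ 2 * (0 - z) ^ 6) +
          4701936 * ((z - (-1 / 2)) ^ 3 * (0 - z) ^ 5) +
          4322160 * ((z - (-1 / 2)) ^ 4 * (0 - z) ^ 4) +
          2497152 * ((z - (-1 / 2)) ^ 5 * (0 - z) ^ 3) +
          1204160 * ((z - (-1 / 2)) ^ 6 * (0 - z) ^ 2) +
          447232 * ((z - (-1 / 2)) ^ 7 * (0 - z) ^ 1) +
          75008 * ((z - (-1 / 2)) ^ 8)) := by
        unfold c0; ring
      rw [e]; positivity
    ·
      rcases le_total z (1 / 4) with h5 | h5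
      · have ha : 0 ≤ z - 0 := by linarith
        have hb : 0 ≤ (1 / 4) - z := by linarith
        have e : c0 z = 1 + (19202048 * (((1 / 4) - z) ^ 8) +
            173178880 * ((z - 0) ^ 1 * ((1 / 4) - z) ^ 7) +
            685715456 * ((z - 0) ^ 2 * ((1 / 4) - z) ^ 6) +
            1538015232 * ((z - 0) ^ 3 * ((1 / 4) - z) ^ 5) +
            2113401600 * ((z - 0) ^ 4 * ((1 / 4) - z) ^ 4) +
            1803782784 * ((z - 0) ^ 5 * ((1 / 4) - z) ^ 3) +
            925995904 * ((z - 0) ^ 6 * ((1 / 4) - z) ^ 2) +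
            260030336 * ((z - 0) ^ 7 * ((1 / 4) - z) ^ 1) +
            30692224 * ((z - 0) ^ 8)) := by
          unfold c0; ring
        rw [e]; positivity
      ·
        rcases le_total z (1 / 2) with h6 | h6
        · have ha : 0 ≤ z - (1 / 4) := by linarith
          have hb : 0 ≤ (1 / 2) - z := by linarith
          have e : c0 z = 1 + (30692224 * (((1 / 2) - z) ^ 8) +
              231045248 * ((z - (1 / 4)) ^ 1 * ((1 / 2) - z) ^ 7) +
              723100288 * ((z - (1 / 4)) ^ 2 * ((1 / 2) - z) ^ 6) +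
              1215736192 * ((z - (1 / 4)) ^ 3 * ((1 / 2) - z) ^ 5) +
              1202124800 * ((z - (1 / 4)) ^ 4 * ((1 / 2) - z) ^ 4) +
              760708096 * ((z - (1 / 4)) ^ 5 * ((1 / 2) - z) ^ 3) +
              375736320 * ((z - (1 / 4)) ^ 6 * ((1 / 2) - z) ^ 2) +
              166189056 * ((z - (1 / 4)) ^ 7 * ((1 / 2) - z) ^ 1) +
              42024960 * ((z - (1 / 4)) ^ 8)) := by
            unfold c0; ring
          rw [e]; positivity
        ·
          have ha : 0 ≤ z - (1 / 2) := by linarith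
          have hb : 0 ≤ 1 - z := by linarith
          have e : c0 z = 1 + (164160 * ((1 - z) ^ 8) +
              2641488 * ((z - (1 / 2)) ^ 1 * (1 - z) ^ 7) +
              19973808 * ((z - (1 / 2)) ^ 2 * (1 - z) ^ 6) +
              84725104 * ((z - (1 / 2)) ^ 3 * (1 - z) ^ 5) +
              214964240 * ((z - (1 / 2)) ^ 4 * (1 - z) ^ 4) +
              333471616 * ((z - (1 / 2)) ^ 5 * (1 - z) ^ 3) +
              310231360 * ((z - (1 / 2)) ^ 6 * (1 - z) ^ 2) +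
              159044864 * ((z - (1 / 2)) ^ 7 * (1 - z) ^ 1) +
              34549504 * ((z - (1 / 2)) ^ 8)) := by
            unfold c0; ring
          rw [e]; positivity

/-- auxiliary polynomial -/
def c1 (z : ℝ) : ℝ :=
    15732 - 114675 * z + 363777 * z ^ 2 - 305852 * z ^ 3 - 766647 * z ^ 4 + 958389 * z ^ 5
    + 791718 * z ^ 6 - 504192 * z ^ 7 - 336960 * z ^ 8

lemma c1_pos {z : ℝ} (h1 : -1 ≤ z) (h2 : z ≤ 1) : 0 < c1 z := by
  rcases le_total z 0 with h3 | h3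
  · have ha : 0 ≤ z - (-1) := by linarith
    have hb : 0 ≤ 0 - z := by linarith
    have e : c1 z = 1 + (33949 * ((0 - z) ^ 8) +
        786368 * ((z - (-1)) ^ 1 * (0 - z) ^ 7) +
        4680487 * ((z - (-1)) ^ 2 * (0 - z) ^ 6) +
        11203644 * ((z - (-1)) ^ 3 * (0 - z) ^ 5) +
        11334063 * ((z - (-1)) ^ 4 * (0 - z) ^ 4) +
        5777625 * ((z - (-1)) ^ 5 * (0 - z) ^ 3) +
        1606970 * ((z - (-1)) ^ 6 * (0 - z) ^ 2) +
        240523 * ((z - (-1)) ^ 7 * (0 - z) ^ 1) +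
        15731 * ((z - (-1)) ^ 8)) := by
      unfold c1; ring
    rw [e]; positivity
  ·
    rcases le_total z (1 / 4) with h4 | h4
    · have ha : 0 ≤ z - 0 := by linarith
      have hb : 0 ≤ (1 / 4) - z := by linarith
      have e : c1 z = 1 + (1030946816 * (((1 / 4) - z) ^ 8) +
          6368739328 * ((z - 0) ^ 1 * ((1 / 4) - z) ^ 7) +
          17204695040 * ((z - 0) ^ 2 * ((1 / 4) - z) ^ 6) +
          26904473600 * ((z - 0) ^ 3 * ((1 / 4) - z) ^ 5) +
          26995280128 * ((z - 0) ^ 4 * ((1 / 4) - z) ^ 4) +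
          17918767424 * ((z - 0) ^ 5 * ((1 / 4) - z) ^ 3) +
          7648614432 * ((z - 0) ^ 6 * ((1 / 4) - z) ^ 2) +
          1892231808 * ((z - 0) ^ 7 * ((1 / 4) - z) ^ 1) +
          204338784 * ((z - 0) ^ 8)) := by
        unfold c1; ring
      rw [e]; positivity
    ·
      rcases le_total z (1 / 2) with h5 | h5
      · have ha : 0 ≤ z - (1 / 4) := by linarith
        have hb : 0 ≤ (1 / 2) - z := by linarith
        have e : c1 z = 1 + (204338784 * (((1 / 2) - z) ^ 8) +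
            1377188736 * ((z - (1 / 4)) ^ 1 * ((1 / 2) - z) ^ 7) +
            4043312928 * ((z - (1 / 4)) ^ 2 * ((1 / 2) - z) ^ 6) +
            6460909120 * ((z - (1 / 4)) ^ 3 * ((1 / 2) - z) ^ 5) +
            5759003648 * ((z - (1 / 4)) ^ 4 * ((1 / 2) - z) ^ 4) +
            2610668032 * ((z - (1 / 4)) ^ 5 * ((1 / 2) - z) ^ 3) +
            425972224 * ((z - (1 / 4)) ^ 6 * ((1 / 2) - z) ^ 2) +
            963584 * ((z - (1 / 4)) ^ 7 * ((1 / 2) - z) ^ 1) +
            16764928 * ((z - (1 / 4)) ^ 8)) := by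
          unfold c1; ring
        rw [e]; positivity
      ·
        have ha : 0 ≤ z - (1 / 2) := by linarith
        have hb : 0 ≤ 1 - z := by linarith
        have e : c1 z = 1 + (65488 * ((1 - z) ^ 8) +
            1564184 * ((z - (1 / 2)) ^ 1 * (1 - z) ^ 7) +
            23000704 * ((z - (1 / 2)) ^ 2 * (1 - z) ^ 6) +
            135816376 * ((z - (1 / 2)) ^ 3 * (1 - z) ^ 5) +
            398925248 * ((z - (1 / 2)) ^ 4 * (1 - z) ^ 4) +
            633094720 * ((z - (1 / 2)) ^ 5 * (1 - z) ^ 3) +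
            536573376 * ((z - (1 / 2)) ^ 6 * (1 - z) ^ 2) +
            214356480 * ((z - (1 / 2)) ^ 7 * (1 - z) ^ 1) +
            25929984 * ((z - (1 / 2)) ^ 8)) := by
          unfold c1; ring
        rw [e]; positivity

/-- auxiliary polynomial -/
def c2 (z : ℝ) : ℝ :=
    100750 - 953565 * z ^ 2 + 2822155 * z ^ 4 - 2650520 * z ^ 6 + 748800 * z ^ 8

lemma c2_pos {z : ℝ} (h1 : -1 ≤ z) (h2 : z ≤ 1) : 0 < c2 z := by
  rcases le_total z (-1 / 2) with h3 | h3
  · have ha : 0 ≤ z - (-1) := by linarith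
    have hb : 0 ≤ (-1 / 2) - z := by linarith
    have e : c2 z = 1 + (17310464 * (((-1 / 2) - z) ^ 8) +
        206481152 * ((z - (-1)) ^ 1 * ((-1 / 2) - z) ^ 7) +
        780704832 * ((z - (-1)) ^ 2 * ((-1 / 2) - z) ^ 6) +
        1310758144 * ((z - (-1)) ^ 3 * ((-1 / 2) - z) ^ 5) +
        1106011760 * ((z - (-1)) ^ 4 * ((-1 / 2) - z) ^ 4) +
        464870464 * ((z - (-1)) ^ 5 * ((-1 / 2) - z) ^ 3) +
        80224512 * ((z - (-1)) ^ 6 * ((-1 / 2) - z) ^ 2) +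
        1457792 * ((z - (-1)) ^ 7 * ((-1 / 2) - z) ^ 1) +
        64784 * ((z - (-1)) ^ 8)) := by
      unfold c2; ring
    rw [e]; positivity
  ·
    rcases le_total z (-1 / 4) with h4 | h4
    · have ha : 0 ≤ z - (-1 / 2) := by linarith
      have hb : 0 ≤ (-1 / 4) - z := by linarith
      have e : c2 z = 1 + (16584704 * (((-1 / 4) - z) ^ 8) +
          12419072 * ((z - (-1 / 2)) ^ 1 * ((-1 / 4) - z) ^ 7) +
          4219932672 * ((z - (-1 / 2)) ^ 2 * ((-1 / 4) - z) ^ 6) +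
          25651247104 * ((z - (-1 / 2)) ^ 3 * ((-1 / 4) - z) ^ 5) +
          63247612160 * ((z - (-1 / 2)) ^ 4 * ((-1 / 4) - z) ^ 4) +
          81544144384 * ((z - (-1 / 2)) ^ 5 * ((-1 / 4) - z) ^ 3) +
          58198127232 * ((z - (-1 / 2)) ^ 6 * ((-1 / 4) - z) ^ 2) +
          21851393792 * ((z - (-1 / 2)) ^ 7 * ((-1 / 4) - z) ^ 1) +
          3377696384 * ((z - (-1 / 2)) ^ 8)) := by
        unfold c2; ring
      rw [e]; positivity
    ·
      rcases le_total z 0 with h5 | h5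
      · have ha : 0 ≤ z - (-1 / 4) := by linarith
        have hb : 0 ≤ 0 - z := by linarith
        have e : c2 z = 1 + (3377696384 * ((0 - z) ^ 8) +
            32191748352 * ((z - (-1 / 4)) ^ 1 * (0 - z) ^ 7) +
            130580609152 * ((z - (-1 / 4)) ^ 2 * (0 - z) ^ 6) +
            294524283904 * ((z - (-1 / 4)) ^ 3 * (0 - z) ^ 5) +
            404323490560 * ((z - (-1 / 4)) ^ 4 * (0 - z) ^ 4) +
            346315628544 * ((z - (-1 / 4)) ^ 5 * (0 - z) ^ 3) +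
            180969418752 * ((z - (-1 / 4)) ^ 6 * (0 - z) ^ 2) +
            52821491712 * ((z - (-1 / 4)) ^ 7 * (0 - z) ^ 1) +
            6602686464 * ((z - (-1 / 4)) ^ 8)) := by
          unfold c2; ring
        rw [e]; positivity
      ·
        rcases le_total z (1 / 4) with h6 | h6
        · have ha : 0 ≤ z - 0 := by linarith
          have hb : 0 ≤ (1 / 4) - z := by linarith
          have e : c2 z = 1 + (6602686464 * (((1 / 4) - z) ^ 8) +
              52821491712 * ((z - 0) ^ 1 * ((1 / 4) - z) ^ 7) +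
              180969418752 * ((z - 0) ^ 2 * ((1 / 4) - z) ^ 6) +
              346315628544 * ((z - 0) ^ 3 * ((1 / 4) - z) ^ 5) +
              404323490560 * ((z - 0) ^ 4 * ((1 / 4) - z) ^ 4) +
              294524283904 * ((z - 0) ^ 5 * ((1 / 4) - z) ^ 3) +
              130580609152 * ((z - 0) ^ 6 * ((1 / 4) - z) ^ 2) +
              32191748352 * ((z - 0) ^ 7 * ((1 / 4) - z) ^ 1) +
              3377696384 * ((z - 0) ^ 8)) := by
            unfold c2; ring
          rw [e]; positivity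
        ·
          rcases le_total z (1 / 2) with h7 | h7
          · have ha : 0 ≤ z - (1 / 4) := by linarith
            have hb : 0 ≤ (1 / 2) - z := by linarith
            have e : c2 z = 1 + (3377696384 * (((1 / 2) - z) ^ 8) +
                21851393792 * ((z - (1 / 4)) ^ 1 * ((1 / 2) - z) ^ 7) +
                58198127232 * ((z - (1 / 4)) ^ 2 * ((1 / 2) - z) ^ 6) +
                81544144384 * ((z - (1 / 4)) ^ 3 * ((1 / 2) - z) ^ 5) +
                63247612160 * ((z - (1 / 4)) ^ 4 * ((1 / 2) - z) ^ 4) +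
                25651247104 * ((z - (1 / 4)) ^ 5 * ((1 / 2) - z) ^ 3) +
                4219932672 * ((z - (1 / 4)) ^ 6 * ((1 / 2) - z) ^ 2) +
                12419072 * ((z - (1 / 4)) ^ 7 * ((1 / 2) - z) ^ 1) +
                16584704 * ((z - (1 / 4)) ^ 8)) := by
              unfold c2; ring
            rw [e]; positivity
          ·
            have ha : 0 ≤ z - (1 / 2) := by linarith
            have hb : 0 ≤ 1 - z := by linarith
            have e : c2 z = 1 + (64784 * ((1 - z) ^ 8) +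
                1457792 * ((z - (1 / 2)) ^ 1 * (1 - z) ^ 7) +
                80224512 * ((z - (1 / 2)) ^ 2 * (1 - z) ^ 6) +
                464870464 * ((z - (1 / 2)) ^ 3 * (1 - z) ^ 5) +
                1106011760 * ((z - (1 / 2)) ^ 4 * (1 - z) ^ 4) +
                1310758144 * ((z - (1 / 2)) ^ 5 * (1 - z) ^ 3) +
                780704832 * ((z - (1 / 2)) ^ 6 * (1 - z) ^ 2) +
                206481152 * ((z - (1 / 2)) ^ 7 * (1 - z) ^ 1) +
                17310464 * ((z - (1 / 2)) ^ 8)) := by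
              unfold c2; ring
            rw [e]; positivity

/-- auxiliary polynomial -/
def t10 (z : ℝ) : ℝ :=
    49695 - 38010 * z + 77805 * z ^ 2 + 32250 * z ^ 3 + 60700 * z ^ 4 + 5760 * z ^ 5 -
    70560 * z ^ 6

lemma t10_pos {z : ℝ} (h1 : -1 ≤ z) (h2 : z ≤ 1) : 0 < t10 z := by
  have ha : 0 ≤ z - (-1) := by linarith
  have hb : 0 ≤ 1 - z := by linarith
  have e : t10 z = 1 + ((117639 / 256) * ((1 - z) ^ 8) +
      (291523 / 64) * ((z - (-1)) ^ 1 * (1 - z) ^ 7) +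
      (446443 / 64) * ((z - (-1)) ^ 2 * (1 - z) ^ 6) +
      (720121 / 64) * ((z - (-1)) ^ 3 * (1 - z) ^ 5) +
      (1885165 / 128) * ((z - (-1)) ^ 4 * (1 - z) ^ 4) +
      (374581 / 64) * ((z - (-1)) ^ 5 * (1 - z) ^ 3) +
      (142363 / 64) * ((z - (-1)) ^ 6 * (1 - z) ^ 2) +
      (203983 / 64) * ((z - (-1)) ^ 7 * (1 - z) ^ 1) +
      (117639 / 256) * ((z - (-1)) ^ 8)) := by
    unfold t10; ring
  rw [e]; positivity

/-- auxiliary polynomial -/
def t11 (z : ℝ) : ℝ :=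
    40328 + 23639 * z ^ 2 + 97093 * z ^ 4 - 102240 * z ^ 6

lemma t11_pos {z : ℝ} (h1 : -1 ≤ z) (h2 : z ≤ 1) : 0 < t11 z := by
  have ha : 0 ≤ z - (-1) := by linarith
  have hb : 0 ≤ 1 - z := by linarith
  have e : t11 z = 1 + ((58819 / 256) * ((1 - z) ^ 8) +
      (206533 / 64) * ((z - (-1)) ^ 1 * (1 - z) ^ 7) +
      (106595 / 64) * ((z - (-1)) ^ 2 * (1 - z) ^ 6) +
      (438699 / 64) * ((z - (-1)) ^ 3 * (1 - z) ^ 5) +
      (2095729 / 128) * ((z - (-1)) ^ 4 * (1 - z) ^ 4) +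
      (438699 / 64) * ((z - (-1)) ^ 5 * (1 - z) ^ 3) +
      (106595 / 64) * ((z - (-1)) ^ 6 * (1 - z) ^ 2) +
      (206533 / 64) * ((z - (-1)) ^ 7 * (1 - z) ^ 1) +
      (58819 / 256) * ((z - (-1)) ^ 8)) := by
    unfold t11; ring
  rw [e]; positivity

/-- auxiliary polynomial -/
def t20 (z : ℝ) : ℝ :=
    46344 + 9218 * z + 6807 * z ^ 2 - 19966 * z ^ 3 + 112709 * z ^ 4 - 31492 * z ^ 5 -
    107040 * z ^ 6 + 42240 * z ^ 7

lemma t20_pos {z : ℝ} (h1 : -1 ≤ z) (h2 : z ≤ 1) : 0 < t20 z := by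
  rcases le_total z 0 with h3 | h3
  · have ha : 0 ≤ z - (-1) := by linarith
    have hb : 0 ≤ 0 - z := by linarith
    have e : t20 z = 1 + (58819 * ((0 - z) ^ 8) +
        735882 * ((z - (-1)) ^ 1 * (0 - z) ^ 7) +
        2069481 * ((z - (-1)) ^ 2 * (0 - z) ^ 6) +
        3090706 * ((z - (-1)) ^ 3 * (0 - z) ^ 5) +
        3236024 * ((z - (-1)) ^ 4 * (0 - z) ^ 4) +
        2462438 * ((z - (-1)) ^ 5 * (0 - z) ^ 3) +
        1239885 * ((z - (-1)) ^ 6 * (0 - z) ^ 2) +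
        361526 * ((z - (-1)) ^ 7 * (0 - z) ^ 1) +
        46343 * ((z - (-1)) ^ 8)) := by
      unfold t20; ring
    rw [e]; positivity
  ·
    have ha : 0 ≤ z - 0 := by linarith
    have hb : 0 ≤ 1 - z := by linarith
    have e : t20 z = 1 + (46343 * ((1 - z) ^ 8) +
        379962 * ((z - 0) ^ 1 * (1 - z) ^ 7) +
        1368937 * ((z - 0) ^ 2 * (1 - z) ^ 6) +
        2809662 * ((z - 0) ^ 3 * (1 - z) ^ 5) +
        3681624 * ((z - 0) ^ 4 * (1 - z) ^ 4) +
        3273662 * ((z - 0) ^ 5 * (1 - z) ^ 3) +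
        1868365 * ((z - 0) ^ 6 * (1 - z) ^ 2) +
        560802 * ((z - 0) ^ 7 * (1 - z) ^ 1) +
        58819 * ((z - 0) ^ 8)) := by
      unfold t20; ring
    rw [e]; positivity

/-- auxiliary polynomial -/
def t21 (z : ℝ) : ℝ :=
    111665 + 29886 * z - 237775 * z ^ 2 + 7498 * z ^ 3 + 1011300 * z ^ 4 - 148424 * z ^ 5 -
    942270 * z ^ 6 + 111040 * z ^ 7 + 174720 * z ^ 8

lemma t21_pos {z : ℝ} (h1 : -1 ≤ z) (h2 : z ≤ 1) : 0 < t21 z := by
  rcases le_total z 0 with h3 | h3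
  · have ha : 0 ≤ z - (-1) := by linarith
    have hb : 0 ≤ 0 - z := by linarith
    have e : t21 z = 1 + (117639 * ((0 - z) ^ 8) +
        1714862 * ((z - (-1)) ^ 1 * (0 - z) ^ 7) +
        4428183 * ((z - (-1)) ^ 2 * (0 - z) ^ 6) +
        4570318 * ((z - (-1)) ^ 3 * (0 - z) ^ 5) +
        4177655 * ((z - (-1)) ^ 4 * (0 - z) ^ 4) +
        4191430 * ((z - (-1)) ^ 5 * (0 - z) ^ 3) +
        2679615 * ((z - (-1)) ^ 6 * (0 - z) ^ 2) +
        863426 * ((z - (-1)) ^ 7 * (0 - z) ^ 1) +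
        111664 * ((z - (-1)) ^ 8)) := by
      unfold t21; ring
    rw [e]; positivity
  ·
    have ha : 0 ≤ z - 0 := by linarith
    have hb : 0 ≤ 1 - z := by linarith
    have e : t21 z = 1 + (111664 * ((1 - z) ^ 8) +
        923198 * ((z - 0) ^ 1 * (1 - z) ^ 7) +
        3098019 * ((z - 0) ^ 2 * (1 - z) ^ 6) +
        5461638 * ((z - 0) ^ 3 * (1 - z) ^ 5) +
        6344655 * ((z - 0) ^ 4 * (1 - z) ^ 4) +
        6515450 * ((z - 0) ^ 5 * (1 - z) ^ 3) +
        4942811 * ((z - 0) ^ 6 * (1 - z) ^ 2) +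
        1539782 * ((z - 0) ^ 7 * (1 - z) ^ 1) +
        117639 * ((z - 0) ^ 8)) := by
      unfold t21; ring
    rw [e]; positivity

/-- auxiliary polynomial -/
def t22 (z : ℝ) : ℝ :=
    34360 - 234665 * z ^ 2 + 756305 * z ^ 4 - 701310 * z ^ 6 + 174720 * z ^ 8

lemma t22_pos {z : ℝ} (h1 : -1 ≤ z) (h2 : z ≤ 1) : 0 < t22 z := by
  rcases le_total z (-1 / 2) with h3 | h3
  · have ha : 0 ≤ z - (-1) := by linarith
    have hb : 0 ≤ (-1 / 2) - z := by linarith
    have e : t22 z = 1 + (7528704 * (((-1 / 2) - z) ^ 8) +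
        92768512 * ((z - (-1)) ^ 1 * ((-1 / 2) - z) ^ 7) +
        353819072 * ((z - (-1)) ^ 2 * ((-1 / 2) - z) ^ 6) +
        635316224 * ((z - (-1)) ^ 3 * ((-1 / 2) - z) ^ 5) +
        628656560 * ((z - (-1)) ^ 4 * ((-1 / 2) - z) ^ 4) +
        367943264 * ((z - (-1)) ^ 5 * ((-1 / 2) - z) ^ 3) +
        131865032 * ((z - (-1)) ^ 6 * ((-1 / 2) - z) ^ 2) +
        28914352 * ((z - (-1)) ^ 7 * ((-1 / 2) - z) ^ 1) +
        3247704 * ((z - (-1)) ^ 8)) := by
      unfold t22; ring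
    rw [e]; positivity
  ·
    rcases le_total z 0 with h4 | h4
    · have ha : 0 ≤ z - (-1 / 2) := by linarith
      have hb : 0 ≤ 0 - z := by linarith
      have e : t22 z = 1 + (3247704 * ((0 - z) ^ 8) +
          23048912 * ((z - (-1 / 2)) ^ 1 * (0 - z) ^ 7) +
          90806952 * ((z - (-1 / 2)) ^ 2 * (0 - z) ^ 6) +
          240602944 * ((z - (-1 / 2)) ^ 3 * (0 - z) ^ 5) +
          402535760 * ((z - (-1 / 2)) ^ 4 * (0 - z) ^ 4) +
          402459264 * ((z - (-1 / 2)) ^ 5 * (0 - z) ^ 3) +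
          231266752 * ((z - (-1 / 2)) ^ 6 * (0 - z) ^ 2) +
          70367232 * ((z - (-1 / 2)) ^ 7 * (0 - z) ^ 1) +
          8795904 * ((z - (-1 / 2)) ^ 8)) := by
        unfold t22; ring
      rw [e]; positivity
    ·
      rcases le_total z (1 / 2) with h5 | h5
      · have ha : 0 ≤ z - 0 := by linarith
        have hb : 0 ≤ (1 / 2) - z := by linarith
        have e : t22 z = 1 + (8795904 * (((1 / 2) - z) ^ 8) +
            70367232 * ((z - 0) ^ 1 * ((1 / 2) - z) ^ 7) +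
            231266752 * ((z - 0) ^ 2 * ((1 / 2) - z) ^ 6) +
            402459264 * ((z - 0) ^ 3 * ((1 / 2) - z) ^ 5) +
            402535760 * ((z - 0) ^ 4 * ((1 / 2) - z) ^ 4) +
            240602944 * ((z - 0) ^ 5 * ((1 / 2) - z) ^ 3) +
            90806952 * ((z - 0) ^ 6 * ((1 / 2) - z) ^ 2) +
            23048912 * ((z - 0) ^ 7 * ((1 / 2) - z) ^ 1) +
            3247704 * ((z - 0) ^ 8)) := by
          unfold t22; ring
        rw [e]; positivity
      ·
        have ha : 0 ≤ z - (1 / 2) := by linarith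
        have hb : 0 ≤ 1 - z := by linarith
        have e : t22 z = 1 + (3247704 * ((1 - z) ^ 8) +
            28914352 * ((z - (1 / 2)) ^ 1 * (1 - z) ^ 7) +
            131865032 * ((z - (1 / 2)) ^ 2 * (1 - z) ^ 6) +
            367943264 * ((z - (1 / 2)) ^ 3 * (1 - z) ^ 5) +
            628656560 * ((z - (1 / 2)) ^ 4 * (1 - z) ^ 4) +
            635316224 * ((z - (1 / 2)) ^ 5 * (1 - z) ^ 3) +
            353819072 * ((z - (1 / 2)) ^ 6 * (1 - z) ^ 2) +
            92768512 * ((z - (1 / 2)) ^ 7 * (1 - z) ^ 1) +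
            7528704 * ((z - (1 / 2)) ^ 8)) := by
          unfold t22; ring
        rw [e]; positivity

/-- auxiliary polynomial -/
def t30 (z : ℝ) : ℝ :=
    139041 + 123962 * z - 35487 * z ^ 2 - 80418 * z ^ 3 + 245044 * z ^ 4 - 342360 * z ^ 5 -
    126126 * z ^ 6 + 298816 * z ^ 7 - 104832 * z ^ 8

lemma t30_pos {z : ℝ} (h1 : -1 ≤ z) (h2 : z ≤ 1) : 0 < t30 z := by
  rcases le_total z 0 with h3 | h3
  · have ha : 0 ≤ z - (-1) := by linarith
    have hb : 0 ≤ 0 - z := by linarith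
    have e : t30 z = 1 + (117639 * ((0 - z) ^ 8) +
        1889942 * ((z - (-1)) ^ 1 * (0 - z) ^ 7) +
        3933011 * ((z - (-1)) ^ 2 * (0 - z) ^ 6) +
        4864546 * ((z - (-1)) ^ 3 * (0 - z) ^ 5) +
        5508959 * ((z - (-1)) ^ 4 * (0 - z) ^ 4) +
        5050534 * ((z - (-1)) ^ 5 * (0 - z) ^ 3) +
        2989899 * ((z - (-1)) ^ 6 * (0 - z) ^ 2) +
        988358 * ((z - (-1)) ^ 7 * (0 - z) ^ 1) +
        139040 * ((z - (-1)) ^ 8)) := by
      unfold t30; ring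
    rw [e]; positivity
  ·
    have ha : 0 ≤ z - 0 := by linarith
    have hb : 0 ≤ 1 - z := by linarith
    have e : t30 z = 1 + (139040 * ((1 - z) ^ 8) +
        1236282 * ((z - 0) ^ 1 * (1 - z) ^ 7) +
        4725367 * ((z - 0) ^ 2 * (1 - z) ^ 6) +
        10096102 * ((z - 0) ^ 3 * (1 - z) ^ 5) +
        13382119 * ((z - 0) ^ 4 * (1 - z) ^ 4) +
        11248806 * ((z - 0) ^ 5 * (1 - z) ^ 3) +
        5476895 * ((z - 0) ^ 6 * (1 - z) ^ 2) +
        1364702 * ((z - 0) ^ 7 * (1 - z) ^ 1) +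
        117639 * ((z - 0) ^ 8)) := by
      unfold t30; ring
    rw [e]; positivity

/-- auxiliary polynomial -/
def t31 (z : ℝ) : ℝ :=
    55668 + 20573 * z - 245565 * z ^ 2 + 31593 * z ^ 3 + 661765 * z ^ 4 - 146790 * z ^ 5 -
    564762 * z ^ 6 + 94624 * z ^ 7 + 122304 * z ^ 8

lemma t31_pos {z : ℝ} (h1 : -1 ≤ z) (h2 : z ≤ 1) : 0 < t31 z := by
  rcases le_total z (-1 / 2) with h3 | h3
  · have ha : 0 ≤ z - (-1) := by linarith
    have hb : 0 ≤ (-1 / 2) - z := by linarith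
    have e : t31 z = 1 + (7528704 * (((-1 / 2) - z) ^ 8) +
        98371072 * ((z - (-1)) ^ 1 * ((-1 / 2) - z) ^ 7) +
        353897728 * ((z - (-1)) ^ 2 * ((-1 / 2) - z) ^ 6) +
        596791328 * ((z - (-1)) ^ 3 * ((-1 / 2) - z) ^ 5) +
        562248560 * ((z - (-1)) ^ 4 * ((-1 / 2) - z) ^ 4) +
        324694320 * ((z - (-1)) ^ 5 * ((-1 / 2) - z) ^ 3) +
        123817288 * ((z - (-1)) ^ 6 * ((-1 / 2) - z) ^ 2) +
        31840096 * ((z - (-1)) ^ 7 * ((-1 / 2) - z) ^ 1) +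
        4326840 * ((z - (-1)) ^ 8)) := by
      unfold t31; ring
    rw [e]; positivity
  ·
    rcases le_total z 0 with h4 | h4
    · have ha : 0 ≤ z - (-1 / 2) := by linarith
      have hb : 0 ≤ 0 - z := by linarith
      have e : t31 z = 1 + (4326840 * ((0 - z) ^ 8) +
          37389344 * ((z - (-1 / 2)) ^ 1 * (0 - z) ^ 7) +
          162662024 * ((z - (-1 / 2)) ^ 2 * (0 - z) ^ 6) +
          424969392 * ((z - (-1 / 2)) ^ 3 * (0 - z) ^ 5) +
          675176560 * ((z - (-1 / 2)) ^ 4 * (0 - z) ^ 4) +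
          647433952 * ((z - (-1 / 2)) ^ 5 * (0 - z) ^ 3) +
          364871488 * ((z - (-1 / 2)) ^ 6 * (0 - z) ^ 2) +
          111372672 * ((z - (-1 / 2)) ^ 7 * (0 - z) ^ 1) +
          14250752 * ((z - (-1 / 2)) ^ 8)) := by
        unfold t31; ring
      rw [e]; positivity
    ·
      have ha : 0 ≤ z - 0 := by linarith
      have hb : 0 ≤ 1 - z := by linarith
      have e : t31 z = 1 + (55667 * ((1 - z) ^ 8) +
          465909 * ((z - 0) ^ 1 * (1 - z) ^ 7) +
          1457122 * ((z - 0) ^ 2 * (1 - z) ^ 6) +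
          2107588 * ((z - 0) ^ 3 * (1 - z) ^ 5) +
          1753000 * ((z - 0) ^ 4 * (1 - z) ^ 4) +
          1742307 * ((z - 0) ^ 5 * (1 - z) ^ 3) +
          1588622 * ((z - 0) ^ 6 * (1 - z) ^ 2) +
          445712 * ((z - 0) ^ 7 * (1 - z) ^ 1) +
          29409 * ((z - 0) ^ 8)) := by
        unfold t31; ring
      rw [e]; positivity

/-- auxiliary polynomial -/
def t40 (z : ℝ) : ℝ :=
    39720 + 58298 * z + 41223 * z ^ 2 + 11730 * z ^ 3 - 101087 * z ^ 4 - 242124 * z ^ 5 +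
    164370 * z ^ 6 + 172096 * z ^ 7 - 114816 * z ^ 8

lemma t40_pos {z : ℝ} (h1 : -1 ≤ z) (h2 : z ≤ 1) : 0 < t40 z := by
  rcases le_total z 0 with h3 | h3
  · have ha : 0 ≤ z - (-1) := by linarith
    have hb : 0 ≤ 0 - z := by linarith
    have e : t40 z = 1 + (29409 * ((0 - z) ^ 8) +
        577022 * ((z - (-1)) ^ 1 * (0 - z) ^ 7) +
        673139 * ((z - (-1)) ^ 2 * (0 - z) ^ 6) +
        728770 * ((z - (-1)) ^ 3 * (0 - z) ^ 5) +
        1198508 * ((z - (-1)) ^ 4 * (0 - z) ^ 4) +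
        1235614 * ((z - (-1)) ^ 5 * (0 - z) ^ 3) +
        745269 * ((z - (-1)) ^ 6 * (0 - z) ^ 2) +
        259454 * ((z - (-1)) ^ 7 * (0 - z) ^ 1) +
        39719 * ((z - (-1)) ^ 8)) := by
      unfold t40; ring
    rw [e]; positivity
  ·
    have ha : 0 ≤ z - 0 := by linarith
    have hb : 0 ≤ 1 - z := by linarith
    have e : t40 z = 1 + (39719 * ((1 - z) ^ 8) +
        376050 * ((z - 0) ^ 1 * (1 - z) ^ 7) +
        1561441 * ((z - 0) ^ 2 * (1 - z) ^ 6) +
        3707590 * ((z - 0) ^ 3 * (1 - z) ^ 5) +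
        5396668 * ((z - 0) ^ 4 * (1 - z) ^ 4) +
        4559982 * ((z - 0) ^ 5 * (1 - z) ^ 3) +
        1903511 * ((z - 0) ^ 6 * (1 - z) ^ 2) +
        401942 * ((z - 0) ^ 7 * (1 - z) ^ 1) +
        29409 * ((z - 0) ^ 8)) := by
      unfold t40; ring
    rw [e]; positivity

lemma S_pos {a z : ℝ} (ha0 : 0 ≤ a) (ha1 : a ≤ 1) (h1 : -1 ≤ z) (h2 : z ≤ 1) :
    0 < Up ((1 - z ^ 2) * a) ((1 - z ^ 2) * (1 - a)) z *
          (-2 * z * a + (1 - z ^ 2) * (12 * a * (1 - a))) +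
        Uq ((1 - z ^ 2) * a) ((1 - z ^ 2) * (1 - a)) z *
          (-2 * z * (1 - a) + (1 - z ^ 2) * (-(12 * a * (1 - a)))) +
        Uz ((1 - z ^ 2) * a) ((1 - z ^ 2) * (1 - a)) z := by
  have k0 := c0_pos h1 h2
  have k1 := c1_pos h1 h2
  have k2 := c2_pos h1 h2
  have k3 := c1_pos (z := -z) (by linarith) (by linarith)
  have k4 := c0_pos (z := -z) (by linarith) (by linarith)
  obtain ⟨b, hb⟩ : ∃ b, b = 1 - a := ⟨_, rfl⟩
  have hb0 : 0 ≤ b := by linarith
  have e : Up ((1 - z ^ 2) * a) ((1 - z ^ 2) * (1 - a)) z *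
          (-2 * z * a + (1 - z ^ 2) * (12 * a * (1 - a))) +
        Uq ((1 - z ^ 2) * a) ((1 - z ^ 2) * (1 - a)) z *
          (-2 * z * (1 - a) + (1 - z ^ 2) * (-(12 * a * (1 - a)))) +
        Uz ((1 - z ^ 2) * a) ((1 - z ^ 2) * (1 - a)) z =
      b ^ 4 * c0 z + 4 * a * b ^ 3 * c1 z + 6 * a ^ 2 * b ^ 2 * c2 z + 4 * a ^ 3 * b * c1 (-z) +
        a ^ 4 * c0 (-z) := by
    rw [hb]
    simp only [Up, Uq, Uz, c0, c1, c2]
    ring
  rw [e]
  have hpos : 0 < a ^ 4 + b ^ 4 := by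
    rcases lt_or_ge 0 a with h | h
    · positivity
    · have : a = 0 := le_antisymm h ha0
      rw [hb, this]; norm_num
  rcases lt_or_ge 0 a with h | h
  · have : 0 < a ^ 4 * c0 (-z) := by positivity
    positivity
  · have h' : a = 0 := le_antisymm h ha0
    have hb1 : b = 1 := by rw [hb, h']; ring
    rw [h', hb1]
    simpa using k0

lemma T_pos_aux {x1 x2 x3 z : ℝ} (hx1 : 0 ≤ x1) (hx2 : 0 ≤ x2) (hx3 : 0 ≤ x3)
    (hs : x1 + x2 + x3 = 1) (h1 : -1 ≤ z) (h2 : z ≤ 1) (hne : x1 + x2 ≠ 0 ∨ z ≠ 0) :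
    0 < 6 * ((1 - z ^ 2) * x1) * Up ((1 - z ^ 2) * x1) ((1 - z ^ 2) * x2) z -
        6 * ((1 - z ^ 2) * x2) * Uq ((1 - z ^ 2) * x1) ((1 - z ^ 2) * x2) z +
        Uz ((1 - z ^ 2) * x1) ((1 - z ^ 2) * x2) z := by
  have k10 := t10_pos h1 h2
  have l10 := t10_pos (z := -z) (by linarith) (by linarith)
  have k11 := t11_pos h1 h2
  have l11 := t11_pos (z := -z) (by linarith) (by linarith)
  have k20 := t20_pos h1 h2
  have l20 := t20_pos (z := -z) (by linarith) (by linarith)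
  have k21 := t21_pos h1 h2
  have l21 := t21_pos (z := -z) (by linarith) (by linarith)
  have k22 := t22_pos h1 h2
  have l22 := t22_pos (z := -z) (by linarith) (by linarith)
  have k30 := t30_pos h1 h2
  have l30 := t30_pos (z := -z) (by linarith) (by linarith)
  have k31 := t31_pos h1 h2
  have l31 := t31_pos (z := -z) (by linarith) (by linarith)
  have k40 := t40_pos h1 h2
  have l40 := t40_pos (z := -z) (by linarith) (by linarith)
  have e : 6 * ((1 - z ^ 2) * x1) * Up ((1 - z ^ 2) * x1) ((1 - z ^ 2) * x2) z -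
        6 * ((1 - z ^ 2) * x2) * Uq ((1 - z ^ 2) * x1) ((1 - z ^ 2) * x2) z +
        Uz ((1 - z ^ 2) * x1) ((1 - z ^ 2) * x2) z =
      x3 ^ 4 * (z ^ 2 * (20610 + 8800 * z ^ 2)) +
      1 * (x2 * x3 ^ 3) * t10 (-z) +
      3 * (x2 ^ 2 * x3 ^ 2) * t20 (-z) +
      1 * (x2 ^ 3 * x3) * t30 (-z) +
      1 * (x2 ^ 4) * t40 (-z) +
      1 * (x1 * x3 ^ 3) * t10 z +
      6 * (x1 * x2 * x3 ^ 2) * t11 z +
      3 * (x1 * x2 ^ 2 * x3) * t21 (-z) +
      4 * (x1 * x2 ^ 3) * t31 (-z) +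
      3 * (x1 ^ 2 * x3 ^ 2) * t20 z +
      3 * (x1 ^ 2 * x2 * x3) * t21 z +
      6 * (x1 ^ 2 * x2 ^ 2) * t22 z +
      1 * (x1 ^ 3 * x3) * t30 z +
      4 * (x1 ^ 3 * x2) * t31 z +
      1 * (x1 ^ 4) * t40 z := by
    have h3 : x3 = 1 - x1 - x2 := by linarith
    rw [h3]
    simp only [Up, Uq, Uz, t10, t11, t20, t21, t22, t30, t31, t40]
    ring
  rw [e]
  rcases hx1.lt_or_eq with h | h
  · have : 0 < 1 * (x1 ^ 4) * t40 z := by positivity
    positivity
  rcases hx2.lt_or_eq with h' | h'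
  · have : 0 < 1 * (x2 ^ 4) * t40 (-z) := by positivity
    positivity
  have h0 : x1 + x2 = 0 := by rw [← h, ← h']; norm_num
  have hz : z ≠ 0 := by
    rcases hne with hne | hne
    · exact absurd h0 hne
    · exact hne
  have h3 : x3 = 1 := by linarith
  rw [← h, ← h', h3]
  have : 0 < z ^ 2 := by positivity
  have : 0 < (1 : ℝ) ^ 4 * (z ^ 2 * (20610 + 8800 * z ^ 2)) := by positivity
  simpa using this

/-- positivity of the derivative along the vertical curves -/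
theorem T_pos {p q z : ℝ} (hp : 0 ≤ p) (hq : 0 ≤ q) (h : p + q + z ^ 2 ≤ 1)
    (hne : p + q ≠ 0 ∨ z ≠ 0) : 0 < 6 * p * Up p q z - 6 * q * Uq p q z + Uz p q z := by
  have hz2 : z ^ 2 ≤ 1 := by linarith
  have h1 : -1 ≤ z := by nlinarith
  have h2 : z ≤ 1 := by nlinarith
  rcases (show 0 ≤ 1 - z ^ 2 by linarith).lt_or_eq with hS | hS
  · have e1 : (1 - z ^ 2) * (p / (1 - z ^ 2)) = p := mul_div_cancel₀ _ hS.ne'
    have e2 : (1 - z ^ 2) * (q / (1 - z ^ 2)) = q := mul_div_cancel₀ _ hS.ne'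
    have hx1 : 0 ≤ p / (1 - z ^ 2) := by positivity
    have hx2 : 0 ≤ q / (1 - z ^ 2) := by positivity
    have hx3 : 0 ≤ 1 - p / (1 - z ^ 2) - q / (1 - z ^ 2) := by
      have : p / (1 - z ^ 2) + q / (1 - z ^ 2) ≤ 1 := by
        rw [← add_div, div_le_one hS]; linarith
      linarith
    have := T_pos_aux hx1 hx2 hx3 (by ring) h1 h2 (by
      rcases hne with hne | hne
      · left
        rw [← add_div]
        exact div_ne_zero hne hS.ne'
      · exact Or.inr hne)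
    rwa [e1, e2] at this
  · have hp0 : p = 0 := by linarith
    have hq0 : q = 0 := by linarith
    have hz1 : z ^ 2 = 1 := by linarith
    have e : 6 * p * Up p q z - 6 * q * Uq p q z + Uz p q z = 20610 * z ^ 2 + 8800 * (z ^ 2) ^ 2 := by
      rw [hp0, hq0]; simp only [Up, Uq, Uz]; ring
    rw [e, hz1]; norm_num

end Pool.Agent.H123R3.C1
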