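import Pool.Agent.H123R3.C1.Poly

/-! # The topological type of the polynomial on the closed ball -/

set_option autoImplicit false

open Set Real Topology

namespace Pool.Agent.H123R3.C1

abbrev E3 := EuclideanSpace ℝ (Fin 3)

/-- two quotient maps with the same fibres -/
lemma exists_homeo {K Y Z : Type*} [TopologicalSpace K] [TopologicalSpace Y] [TopologicalSpace Z]
    [CompactSpace K] [T2Space Y] [T2Space Z] {A : K → Y} {B : K → Z} (hA : Continuous A)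
    (hB : Continuous B) (sA : Function.Surjective A) (sB : Function.Surjective B)
    (h : ∀ k k', A k = A k' ↔ B k = B k') : ∃ Φ : Y ≃ₜ Z, ∀ k, Φ (A k) = B k := by
  have qA : IsQuotientMap A := hA.isClosedMap.isQuotientMap hA sA
  have qB : IsQuotientMap B := hB.isClosedMap.isQuotientMap hB sB
  have e1 : ∀ k, B (Function.surjInv sA (A k)) = B k := fun k =>
    (h _ _).1 (Function.surjInv_eq sA (A k))
  have e2 : ∀ k, A (Function.surjInv sB (B k)) = A k := fun k =>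
    (h _ _).2 (Function.surjInv_eq sB (B k))
  refine ⟨⟨⟨fun y => B (Function.surjInv sA y), fun z => A (Function.surjInv sB z), ?_, ?_⟩,
    ?_, ?_⟩, fun k => e1 k⟩
  · intro y
    obtain ⟨k, rfl⟩ := sA y
    simp only [e1, e2]
  · intro z
    obtain ⟨k, rfl⟩ := sB z
    simp only [e1, e2]
  · refine qA.continuous_iff.2 ?_
    have : (fun y => B (Function.surjInv sA y)) ∘ A = B := funext e1
    change Continuous ((fun y => B (Function.surjInv sA y)) ∘ A)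
    rw [this]; exact hB
  · refine qB.continuous_iff.2 ?_
    have : (fun y => A (Function.surjInv sB y)) ∘ B = A := funext e2
    change Continuous ((fun y => A (Function.surjInv sB y)) ∘ B)
    rw [this]; exact hA

/-- squared norm along the vertical curves -/
noncomputable def nq (a b z : ℝ) : ℝ := a ^ 2 * exp (6 * z) + b ^ 2 * exp (-(6 * z)) + z ^ 2

/-- the function along the vertical curves -/
noncomputable def Vf (a b z : ℝ) : ℝ := U (a ^ 2 * exp (6 * z)) (b ^ 2 * exp (-(6 * z))) z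

lemma U_cont : Continuous fun x : ℝ × ℝ × ℝ => U x.1 x.2.1 x.2.2 := by unfold U; fun_prop

lemma nq_cont (a b : ℝ) : Continuous (nq a b) := by unfold nq; fun_prop

lemma Vf_cont (a b : ℝ) : Continuous (Vf a b) := by unfold Vf U; fun_prop

lemma nq_convex (a b : ℝ) : ConvexOn ℝ univ (nq a b) := by
  have h1 : ConvexOn ℝ univ fun z : ℝ => exp (6 * z) := by
    have := convexOn_exp.comp_linearMap ((6 : ℝ) • (LinearMap.id : ℝ →ₗ[ℝ] ℝ))
    simpa [Function.comp_def] using this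
  have h2 : ConvexOn ℝ univ fun z : ℝ => exp (-(6 * z)) := by
    have := convexOn_exp.comp_linearMap ((-6 : ℝ) • (LinearMap.id : ℝ →ₗ[ℝ] ℝ))
    simpa [Function.comp_def, neg_mul] using this
  have h3 : ConvexOn ℝ univ fun z : ℝ => z ^ 2 := even_two.convexOn_pow
  have h4 := ((h1.smul (sq_nonneg a)).add (h2.smul (sq_nonneg b))).add h3
  exact h4

lemma nq_le_one {a b z1 z2 z : ℝ} (h1 : nq a b z1 ≤ 1) (h2 : nq a b z2 ≤ 1) (hz : z ∈ Icc z1 z2) :
    nq a b z ≤ 1 :=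
  ((nq_convex a b).le_max_of_mem_Icc (mem_univ _) (mem_univ _) hz).trans (max_le h1 h2)

lemma axis_strictMono : StrictMono fun z : ℝ => U 0 0 z := by
  have h3 : StrictMono fun z : ℝ => z ^ 3 := Odd.strictMono_pow (by decide)
  have h5 : StrictMono fun z : ℝ => z ^ 5 := Odd.strictMono_pow (by decide)
  intro z1 z2 h
  have := h3 h
  have := h5 h
  simp only [U] at *
  nlinarith

lemma Vf_lt {a b z1 z2 : ℝ} (h1 : nq a b z1 ≤ 1) (h2 : nq a b z2 ≤ 1) (h : z1 < z2) :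
    Vf a b z1 < Vf a b z2 := by
  by_cases hab : a = 0 ∧ b = 0
  · unfold Vf
    rw [hab.1, hab.2]
    simpa using axis_strictMono h
  have hd : ∀ z, HasDerivAt (Vf a b)
      (6 * (a ^ 2 * exp (6 * z)) * Up (a ^ 2 * exp (6 * z)) (b ^ 2 * exp (-(6 * z))) z -
        6 * (b ^ 2 * exp (-(6 * z))) * Uq (a ^ 2 * exp (6 * z)) (b ^ 2 * exp (-(6 * z))) z +
        Uz (a ^ 2 * exp (6 * z)) (b ^ 2 * exp (-(6 * z))) z) z := by
    intro z
    have e1 : HasDerivAt (fun s : ℝ => a ^ 2 * exp (6 * s)) (a ^ 2 * (exp (6 * z) * (6 * 1))) z :=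
      (((hasDerivAt_id z).const_mul 6).exp).const_mul _
    have e2 : HasDerivAt (fun s : ℝ => b ^ 2 * exp (-(6 * s)))
        (b ^ 2 * (exp (-(6 * z)) * (-(6 * 1)))) z :=
      ((((hasDerivAt_id z).const_mul 6).neg).exp).const_mul _
    have := hasDerivAt_U e1 e2 (hasDerivAt_id z)
    refine this.congr_deriv ?_
    simp only [id]
    ring
  have hmono : StrictMonoOn (Vf a b) (Icc z1 z2) := by
    refine strictMonoOn_of_deriv_pos (convex_Icc _ _) (Vf_cont a b).continuousOn ?_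
    intro z hz
    rw [interior_Icc] at hz
    rw [(hd z).deriv]
    have hn := nq_le_one h1 h2 ⟨hz.1.le, hz.2.le⟩
    apply T_pos (by positivity) (by positivity) hn
    left
    intro h0
    have p1 : 0 ≤ a ^ 2 * exp (6 * z) := by positivity
    have p2 : 0 ≤ b ^ 2 * exp (-(6 * z)) := by positivity
    have q1 : a ^ 2 * exp (6 * z) = 0 := by linarith
    have q2 : b ^ 2 * exp (-(6 * z)) = 0 := by linarith
    apply hab
    constructor
    · have := (mul_eq_zero.1 q1).resolve_right (exp_pos _).ne'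
      exact pow_eq_zero_iff (two_ne_zero) |>.1 this
    · have := (mul_eq_zero.1 q2).resolve_right (exp_pos _).ne'
      exact pow_eq_zero_iff (two_ne_zero) |>.1 this
  exact hmono ⟨le_rfl, h.le⟩ ⟨h.le, le_rfl⟩ h

lemma Vf_inj {a b z1 z2 : ℝ} (h1 : nq a b z1 ≤ 1) (h2 : nq a b z2 ≤ 1)
    (h : Vf a b z1 = Vf a b z2) : z1 = z2 := by
  rcases lt_trichotomy z1 z2 with hlt | heq | hgt
  · exact absurd h (Vf_lt h1 h2 hlt).ne
  · exact heq
  · exact absurd h (Vf_lt h2 h1 hgt).ne'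

/-- horizontal part of the squared norm -/
noncomputable def Nf (a b z : ℝ) : ℝ := a ^ 2 * exp (6 * z) + b ^ 2 * exp (-(6 * z))

/-- the fraction -/
noncomputable def al (a b z : ℝ) : ℝ := a ^ 2 * exp (6 * z) / Nf a b z

/-- the function along the boundary curves -/
noncomputable def Wf (a b z : ℝ) : ℝ :=
  U ((1 - z ^ 2) * al a b z) ((1 - z ^ 2) * (1 - al a b z)) z

lemma Nf_pos {a b : ℝ} (h : a ^ 2 + b ^ 2 = 1) (z : ℝ) : 0 < Nf a b z := by
  unfold Nf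
  rcases (sq_nonneg a).lt_or_eq with ha | ha
  · have := exp_pos (6 * z)
    positivity
  · have hb : b ^ 2 = 1 := by linarith
    rw [← ha, hb]
    have := exp_pos (-(6 * z))
    linarith

lemma al_mem {a b : ℝ} (h : a ^ 2 + b ^ 2 = 1) (z : ℝ) : 0 ≤ al a b z ∧ al a b z ≤ 1 := by
  have := Nf_pos h z
  refine ⟨by unfold al; positivity, ?_⟩
  unfold al
  rw [div_le_one this]
  unfold Nf
  have : 0 ≤ b ^ 2 * exp (-(6 * z)) := by positivity
  linarith

lemma al_deriv {a b : ℝ} (h : a ^ 2 + b ^ 2 = 1) (z : ℝ) :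
    HasDerivAt (al a b) (12 * al a b z * (1 - al a b z)) z := by
  have hN := Nf_pos h z
  have e1 : HasDerivAt (fun s : ℝ => a ^ 2 * exp (6 * s)) (a ^ 2 * (exp (6 * z) * (6 * 1))) z :=
    (((hasDerivAt_id z).const_mul 6).exp).const_mul _
  have e2 : HasDerivAt (fun s : ℝ => b ^ 2 * exp (-(6 * s)))
      (b ^ 2 * (exp (-(6 * z)) * (-(6 * 1)))) z :=
    ((((hasDerivAt_id z).const_mul 6).neg).exp).const_mul _
  have e3 := e1.div (e1.add e2) hN.ne'
  refine e3.congr_deriv ?_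
  unfold al
  have hN' : Nf a b z = a ^ 2 * exp (6 * z) + b ^ 2 * exp (-(6 * z)) := rfl
  simp only [Pi.add_apply]
  rw [← hN']
  have hb : 1 - a ^ 2 * exp (6 * z) / Nf a b z = b ^ 2 * exp (-(6 * z)) / Nf a b z := by
    field_simp
    rw [hN']; ring
  rw [hb]
  field_simp
  rw [hN']
  ring

lemma al_cont {a b : ℝ} (h : a ^ 2 + b ^ 2 = 1) : Continuous (al a b) :=
  continuous_iff_continuousAt.2 fun z => (al_deriv h z).continuousAt

lemma Wf_cont {a b : ℝ} (h : a ^ 2 + b ^ 2 = 1) : Continuous (Wf a b) := by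
  have h1 := al_cont h
  unfold Wf U
  fun_prop

lemma Wf_strictMono {a b : ℝ} (h : a ^ 2 + b ^ 2 = 1) : StrictMonoOn (Wf a b) (Icc (-1) 1) := by
  refine strictMonoOn_of_deriv_pos (convex_Icc _ _) (Wf_cont h).continuousOn ?_
  intro z hz
  rw [interior_Icc] at hz
  have ha := al_deriv h z
  have h1 : HasDerivAt (fun s : ℝ => 1 - s ^ 2) (-2 * z) z := by
    have := ((hasDerivAt_id z).pow 2).const_sub 1
    refine this.congr_deriv ?_
    simp
  have hp := h1.mul ha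
  have hq := h1.mul (ha.const_sub 1)
  have := hasDerivAt_U hp hq (hasDerivAt_id z)
  have e : deriv (Wf a b) z = _ := this.deriv
  rw [e]
  have key := S_pos (al_mem h z).1 (al_mem h z).2 hz.1.le hz.2.le
  simp only [Pi.mul_apply, id, mul_one] 
  convert key using 3

lemma Wf_one (a b : ℝ) : Wf a b 1 = 8630 := by unfold Wf U; norm_num

lemma Wf_neg_one (a b : ℝ) : Wf a b (-1) = -8630 := by unfold Wf U; norm_num

/-- on the sphere the two functions agree -/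
lemma Vf_eq_Wf {a b l z : ℝ} (h : a ^ 2 + b ^ 2 = 1) (hl : nq (l * a) (l * b) z = 1) :
    Vf (l * a) (l * b) z = Wf a b z := by
  have hN := Nf_pos h z
  have h1 : l ^ 2 * Nf a b z = 1 - z ^ 2 := by
    unfold nq at hl
    unfold Nf
    linarith
  have e1 : (l * a) ^ 2 * exp (6 * z) = (1 - z ^ 2) * al a b z := by
    rw [← h1]; unfold al
    field_simp
  have e2 : (l * b) ^ 2 * exp (-(6 * z)) = (1 - z ^ 2) * (1 - al a b z) := by
    rw [mul_one_sub, ← e1, ← h1]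
    unfold Nf; ring
  unfold Vf Wf
  rw [e1, e2]


/-- the parameters: direction, boundary point, fraction, height -/
def Kp (a b l β τ z : ℝ) : Prop :=
  a ^ 2 + b ^ 2 = 1 ∧ 0 ≤ l ∧ nq (l * a) (l * b) β = 1 ∧ 0 ≤ τ ∧ τ ≤ 1 ∧
    nq (τ * l * a) (τ * l * b) z ≤ 1 ∧ Vf (τ * l * a) (τ * l * b) z = Vf (l * a) (l * b) β

lemma nq_eq {a b : ℝ} (l z : ℝ) : nq (l * a) (l * b) z = l ^ 2 * Nf a b z + z ^ 2 := by
  unfold nq Nf; ring

lemma sq_le_of_nq {a b z : ℝ} (h : nq a b z ≤ 1) : z ^ 2 ≤ 1 := by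
  unfold nq at h
  have h1 : 0 ≤ a ^ 2 * exp (6 * z) := by positivity
  have h2 : 0 ≤ b ^ 2 * exp (-(6 * z)) := by positivity
  linarith

lemma mem_of_nq {a b z : ℝ} (h : nq a b z ≤ 1) : z ∈ Icc (-1 : ℝ) 1 := by
  have := sq_le_of_nq h
  exact ⟨by nlinarith, by nlinarith⟩

lemma Wf_mem {a b z : ℝ} (h : a ^ 2 + b ^ 2 = 1) (hz : z ∈ Icc (-1 : ℝ) 1) :
    -8630 ≤ Wf a b z ∧ Wf a b z ≤ 8630 := by
  have hm := (Wf_strictMono h).monotoneOn
  refine ⟨?_, ?_⟩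
  · rw [← Wf_neg_one a b]
    exact hm ⟨le_rfl, by norm_num⟩ hz hz.1
  · rw [← Wf_one a b]
    exact hm hz ⟨by norm_num, le_rfl⟩ hz.2

/-- the level, normalised -/
noncomputable def wv (a b l β : ℝ) : ℝ := Vf (l * a) (l * b) β / 8630

lemma wv_sq {a b l β τ z : ℝ} (h : Kp a b l β τ z) : (wv a b l β) ^ 2 ≤ 1 := by
  obtain ⟨h1, h2, h3, -⟩ := h
  unfold wv
  rw [Vf_eq_Wf h1 h3]
  obtain ⟨k1, k2⟩ := Wf_mem h1 (mem_of_nq h3.le)
  have k3 : -1 ≤ Wf a b β / 8630 := by rw [le_div_iff₀ (by norm_num)]; linarith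
  have k4 : Wf a b β / 8630 ≤ 1 := by rw [div_le_one (by norm_num)]; exact k2
  nlinarith

lemma sq_one_cases {x : ℝ} (h : x ^ 2 = 1) : x = 1 ∨ x = -1 := by
  have h' : x ^ 2 = 1 ^ 2 := by rw [h]; norm_num
  exact sq_eq_sq_iff_eq_or_eq_neg.1 h'

lemma l_zero_iff {a b l β τ z : ℝ} (h : Kp a b l β τ z) : l = 0 ↔ 1 - (wv a b l β) ^ 2 = 0 := by
  obtain ⟨h1, h2, h3, -⟩ := h
  have hN := Nf_pos h1 β
  have hβ := mem_of_nq h3.le
  have e := nq_eq (a := a) (b := b) l β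
  rw [h3] at e
  unfold wv
  rw [Vf_eq_Wf h1 h3]
  constructor
  · intro hl
    rw [hl] at e
    have hb : β ^ 2 = 1 := by linarith
    rcases sq_one_cases hb with h | h
    · rw [h, Wf_one]; norm_num
    · rw [h, Wf_neg_one]; norm_num
  · intro hw
    have hw' : (Wf a b β / 8630) ^ 2 = 1 := by linarith
    have hb : β ^ 2 = 1 := by
      rcases sq_one_cases hw' with h | h
      · have : Wf a b β = Wf a b 1 := by rw [Wf_one]; field_simp at h; linarith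
        have := (Wf_strictMono h1).injOn hβ ⟨by norm_num, le_rfl⟩ this
        rw [this]; norm_num
      · have : Wf a b β = Wf a b (-1) := by rw [Wf_neg_one]; field_simp at h; linarith
        have := (Wf_strictMono h1).injOn hβ ⟨le_rfl, by norm_num⟩ this
        rw [this]; norm_num
    have : l ^ 2 * Nf a b β = 0 := by linarith
    have := (mul_eq_zero.1 this).resolve_right hN.ne'
    exact pow_eq_zero_iff two_ne_zero |>.1 this

lemma eq_of_sq {s t : ℝ} (hs : 0 ≤ s) (ht : 0 ≤ t) (h : s ^ 2 = t ^ 2) : s = t :=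
  (sq_eq_sq₀ hs ht).1 h

/-- same direction and same level: same boundary point -/
lemma bd_unique {a b l β l' β' : ℝ} (h1 : a ^ 2 + b ^ 2 = 1) (hl : 0 ≤ l) (hl' : 0 ≤ l')
    (h3 : nq (l * a) (l * b) β = 1) (h3' : nq (l' * a) (l' * b) β' = 1)
    (hV : Vf (l * a) (l * b) β = Vf (l' * a) (l' * b) β') : β = β' ∧ l = l' := by
  rw [Vf_eq_Wf h1 h3, Vf_eq_Wf h1 h3'] at hV
  have hb := (Wf_strictMono h1).injOn (mem_of_nq h3.le) (mem_of_nq h3'.le) hV
  refine ⟨hb, ?_⟩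
  subst hb
  rw [nq_eq] at h3 h3'
  have hN := Nf_pos h1 β
  apply eq_of_sq hl hl'
  have : l ^ 2 * Nf a b β = l' ^ 2 * Nf a b β := by linarith
  exact mul_right_cancel₀ hN.ne' this

lemma fib1 {a b l β τ z a' b' l' β' τ' z' : ℝ} (h : Kp a b l β τ z) (h' : Kp a' b' l' β' τ' z')
    (hz : z = z') (ha : τ * l * a = τ' * l' * a') (hb : τ * l * b = τ' * l' * b') :
    wv a b l β = wv a' b' l' β' ∧
      τ * √(1 - (wv a b l β) ^ 2) * a = τ' * √(1 - (wv a' b' l' β') ^ 2) * a' ∧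
      τ * √(1 - (wv a b l β) ^ 2) * b = τ' * √(1 - (wv a' b' l' β') ^ 2) * b' := by
  have z0 := l_zero_iff h
  have z0' := l_zero_iff h'
  obtain ⟨h1, h2, h3, h4, h5, h6, h7⟩ := h
  obtain ⟨h1', h2', h3', h4', h5', h6', h7'⟩ := h'
  subst hz
  have hV : Vf (l * a) (l * b) β = Vf (l' * a') (l' * b') β' := by rw [← h7, ← h7', ha, hb]
  have hw : wv a b l β = wv a' b' l' β' := by unfold wv; rw [hV]
  refine ⟨hw, ?_⟩
  have hs : (τ * l) ^ 2 = (τ' * l') ^ 2 := by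
    have e1 : (τ * l) ^ 2 = (τ * l * a) ^ 2 + (τ * l * b) ^ 2 := by
      have : (τ * l * a) ^ 2 + (τ * l * b) ^ 2 = (τ * l) ^ 2 * (a ^ 2 + b ^ 2) := by ring
      rw [this, h1, mul_one]
    have e2 : (τ' * l') ^ 2 = (τ' * l' * a') ^ 2 + (τ' * l' * b') ^ 2 := by
      have : (τ' * l' * a') ^ 2 + (τ' * l' * b') ^ 2 = (τ' * l') ^ 2 * (a' ^ 2 + b' ^ 2) := by ring
      rw [this, h1', mul_one]
    rw [e1, e2, ha, hb]
  have ht := eq_of_sq (mul_nonneg h4 h2) (mul_nonneg h4' h2') hs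
  by_cases h0 : τ * l = 0
  · have k1 : τ * √(1 - (wv a b l β) ^ 2) = 0 := by
      rcases mul_eq_zero.1 h0 with k | k
      · rw [k, zero_mul]
      · rw [z0.1 k, Real.sqrt_zero, mul_zero]
    have k2 : τ' * √(1 - (wv a' b' l' β') ^ 2) = 0 := by
      rcases mul_eq_zero.1 (ht ▸ h0 : τ' * l' = 0) with k | k
      · rw [k, zero_mul]
      · rw [z0'.1 k, Real.sqrt_zero, mul_zero]
    rw [k1, k2]; simp
  · have ea : a = a' := by
      rw [← ht] at ha
      exact mul_left_cancel₀ h0 ha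
    have eb : b = b' := by
      rw [← ht] at hb
      exact mul_left_cancel₀ h0 hb
    subst ea eb
    obtain ⟨e3, e4⟩ := bd_unique h1 h2 h2' h3 h3' hV
    subst e3 e4
    have hl : l ≠ 0 := fun h => h0 (by rw [h, mul_zero])
    have : τ = τ' := mul_right_cancel₀ hl ht
    rw [this]; exact ⟨rfl, rfl⟩

lemma fib2 {a b l β τ z a' b' l' β' τ' z' : ℝ} (h : Kp a b l β τ z) (h' : Kp a' b' l' β' τ' z')
    (hw : wv a b l β = wv a' b' l' β')
    (ha : τ * √(1 - (wv a b l β) ^ 2) * a = τ' * √(1 - (wv a' b' l' β') ^ 2) * a')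
    (hb : τ * √(1 - (wv a b l β) ^ 2) * b = τ' * √(1 - (wv a' b' l' β') ^ 2) * b') :
    z = z' ∧ τ * l * a = τ' * l' * a' ∧ τ * l * b = τ' * l' * b' := by
  have z0 := l_zero_iff h
  have z0' := l_zero_iff h'
  have hsq := wv_sq h
  obtain ⟨h1, h2, h3, h4, h5, h6, h7⟩ := h
  obtain ⟨h1', h2', h3', h4', h5', h6', h7'⟩ := h'
  have hV : Vf (l * a) (l * b) β = Vf (l' * a') (l' * b') β' := by
    unfold wv at hw
    field_simp at hw
    linarith
  suffices hs : τ * l * a = τ' * l' * a' ∧ τ * l * b = τ' * l' * b' by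
    refine ⟨?_, hs⟩
    rw [← h7, ← h7', ← hs.1, ← hs.2] at hV
    rw [← hs.1, ← hs.2] at h6'
    exact Vf_inj h6 h6' hV
  rw [← hw] at ha hb z0'
  set σ := √(1 - (wv a b l β) ^ 2) with hσ
  have hσ0 : 0 ≤ σ := Real.sqrt_nonneg _
  by_cases hσz : σ = 0
  · have k : 1 - (wv a b l β) ^ 2 = 0 := by
      rw [hσ] at hσz
      exact (Real.sqrt_eq_zero (by linarith)).1 hσz
    rw [z0.2 k, z0'.2 k]; simp
  have ht : τ * σ = τ' * σ := by
    apply eq_of_sq (mul_nonneg h4 hσ0) (mul_nonneg h4' hσ0)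
    have e1 : (τ * σ) ^ 2 = (τ * σ * a) ^ 2 + (τ * σ * b) ^ 2 := by
      have : (τ * σ * a) ^ 2 + (τ * σ * b) ^ 2 = (τ * σ) ^ 2 * (a ^ 2 + b ^ 2) := by ring
      rw [this, h1, mul_one]
    have e2 : (τ' * σ) ^ 2 = (τ' * σ * a') ^ 2 + (τ' * σ * b') ^ 2 := by
      have : (τ' * σ * a') ^ 2 + (τ' * σ * b') ^ 2 = (τ' * σ) ^ 2 * (a' ^ 2 + b' ^ 2) := by ring
      rw [this, h1', mul_one]
    rw [e1, e2, ha, hb]
  have ht' : τ = τ' := mul_right_cancel₀ hσz ht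
  subst ht'
  by_cases hτ : τ = 0
  · rw [hτ]; simp
  have hne : τ * σ ≠ 0 := mul_ne_zero hτ hσz
  have ea : a = a' := mul_left_cancel₀ hne ha
  have eb : b = b' := mul_left_cancel₀ hne hb
  subst ea eb
  obtain ⟨e3, e4⟩ := bd_unique h1 h2 h2' h3 h3' hV
  subst e3 e4
  exact ⟨rfl, rfl⟩

lemma exists_l {a b z : ℝ} (h : a ^ 2 + b ^ 2 = 1) (hz : z ∈ Icc (-1 : ℝ) 1) :
    ∃ l, 0 ≤ l ∧ nq (l * a) (l * b) z = 1 := by
  have hN := Nf_pos h z
  have h1 : z ^ 2 ≤ 1 := by nlinarith [hz.1, hz.2]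
  refine ⟨√((1 - z ^ 2) / Nf a b z), Real.sqrt_nonneg _, ?_⟩
  rw [nq_eq, Real.sq_sqrt (div_nonneg (by linarith) hN.le), div_mul_cancel₀ _ hN.ne']
  ring

/-- the vertical line leaves the ball above and below -/
lemma exists_ends {a b z : ℝ} (h : nq a b z ≤ 1) :
    ∃ z1 z2, z1 ≤ z ∧ z ≤ z2 ∧ nq a b z1 = 1 ∧ nq a b z2 = 1 := by
  have hz := mem_of_nq h
  have h1 : 1 ≤ nq a b 1 := by
    unfold nq
    have h1 : 0 ≤ a ^ 2 * exp (6 * 1) := by positivity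
    have h2 : 0 ≤ b ^ 2 * exp (-(6 * 1)) := by positivity
    linarith
  have h2 : 1 ≤ nq a b (-1) := by
    unfold nq
    have h1 : 0 ≤ a ^ 2 * exp (6 * (-1)) := by positivity
    have h2 : 0 ≤ b ^ 2 * exp (-(6 * (-1))) := by positivity
    linarith
  obtain ⟨z2, hz2, e2⟩ := intermediate_value_Icc hz.2 (nq_cont a b).continuousOn ⟨h, h1⟩
  obtain ⟨z1, hz1, e1⟩ := intermediate_value_Icc' hz.1 (nq_cont a b).continuousOn ⟨h, h2⟩
  exact ⟨z1, z2, hz1.2, hz2.1, e1, e2⟩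

lemma Vf_mono {a b z1 z2 : ℝ} (h1 : nq a b z1 ≤ 1) (h2 : nq a b z2 ≤ 1) (h : z1 ≤ z2) :
    Vf a b z1 ≤ Vf a b z2 := by
  rcases h.lt_or_eq with h | h
  · exact (Vf_lt h1 h2 h).le
  · rw [h]

lemma exists_polar (x y : ℝ) : ∃ t a b : ℝ, 0 ≤ t ∧ a ^ 2 + b ^ 2 = 1 ∧ t * a = x ∧ t * b = y := by
  by_cases h : x ^ 2 + y ^ 2 = 0
  · have hx : x = 0 := by nlinarith [sq_nonneg x, sq_nonneg y]
    have hy : y = 0 := by nlinarith [sq_nonneg x, sq_nonneg y]
    exact ⟨0, 1, 0, le_rfl, by norm_num, by simp [hx], by simp [hy]⟩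
  · have hp : 0 < x ^ 2 + y ^ 2 := lt_of_le_of_ne (by positivity) (Ne.symm h)
    have hs : 0 < √(x ^ 2 + y ^ 2) := Real.sqrt_pos.2 hp
    refine ⟨√(x ^ 2 + y ^ 2), x / √(x ^ 2 + y ^ 2), y / √(x ^ 2 + y ^ 2), hs.le, ?_, ?_, ?_⟩
    · rw [div_pow, div_pow, ← add_div, Real.sq_sqrt hp.le, div_self h]
    · exact mul_div_cancel₀ _ hs.ne'
    · exact mul_div_cancel₀ _ hs.ne'

lemma surj1 {x y z : ℝ} (h : nq x y z ≤ 1) :
    ∃ a b l β τ, Kp a b l β τ z ∧ τ * l * a = x ∧ τ * l * b = y := by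
  obtain ⟨t, a, b, ht, h1, rfl, rfl⟩ := exists_polar x y
  obtain ⟨z1, z2, hz1, hz2, e1, e2⟩ := exists_ends h
  have m1 := Vf_mono e1.le h hz1
  have m2 := Vf_mono h e2.le hz2
  rw [Vf_eq_Wf h1 e1] at m1
  rw [Vf_eq_Wf h1 e2] at m2
  obtain ⟨β, hβ, eβ⟩ := intermediate_value_Icc (hz1.trans hz2) (Wf_cont h1).continuousOn ⟨m1, m2⟩
  have hn := nq_le_one e1.le e2.le hβ
  obtain ⟨l, hl, el⟩ := exists_l h1 (mem_of_nq hn)
  have hN := Nf_pos h1 β
  have htl : t ≤ l := by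
    rw [nq_eq] at hn el
    have : t ^ 2 * Nf a b β ≤ l ^ 2 * Nf a b β := by linarith
    have := le_of_mul_le_mul_right this hN
    exact abs_le_of_sq_le_sq' this hl |>.2
  have hτl : t / l * l = t := by
    by_cases h0 : l = 0
    · rw [h0] at htl ⊢
      have : t = 0 := le_antisymm htl ht
      rw [this]; simp
    · exact div_mul_cancel₀ _ h0
  refine ⟨a, b, l, β, t / l, ⟨h1, hl, el, by positivity, div_le_one_of_le₀ htl hl, ?_, ?_⟩, ?_, ?_⟩
  · rw [hτl]; exact h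
  · rw [hτl, Vf_eq_Wf h1 el, eβ]
  · rw [hτl]
  · rw [hτl]

lemma surj2 {X Y w : ℝ} (h : X ^ 2 + Y ^ 2 + w ^ 2 ≤ 1) :
    ∃ a b l β τ z, Kp a b l β τ z ∧ wv a b l β = w ∧ τ * √(1 - w ^ 2) * a = X ∧
      τ * √(1 - w ^ 2) * b = Y := by
  obtain ⟨t, a, b, ht, h1, rfl, rfl⟩ := exists_polar X Y
  have ht2 : t ^ 2 ≤ 1 - w ^ 2 := by
    have : (t * a) ^ 2 + (t * b) ^ 2 = t ^ 2 := by
      have : (t * a) ^ 2 + (t * b) ^ 2 = t ^ 2 * (a ^ 2 + b ^ 2) := by ring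
      rw [this, h1, mul_one]
    linarith
  have hw2 : w ^ 2 ≤ 1 := by nlinarith [sq_nonneg t]
  have hw1 : -1 ≤ w := by nlinarith
  have hw3 : w ≤ 1 := by nlinarith
  obtain ⟨β, hβ, eβ⟩ := intermediate_value_Icc (show (-1 : ℝ) ≤ 1 by norm_num)
    (Wf_cont h1).continuousOn (show 8630 * w ∈ Icc (Wf a b (-1)) (Wf a b 1) by
      rw [Wf_one, Wf_neg_one]; exact ⟨by linarith, by linarith⟩)
  obtain ⟨l, hl, el⟩ := exists_l h1 hβ
  set σ := √(1 - w ^ 2) with hσ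
  have hσ0 : 0 ≤ σ := Real.sqrt_nonneg _
  have htσ : t ≤ σ := Real.le_sqrt_of_sq_le ht2
  have hτσ : t / σ * σ = t := by
    by_cases h0 : σ = 0
    · rw [h0] at htσ ⊢
      have : t = 0 := le_antisymm htσ ht
      rw [this]; simp
    · exact div_mul_cancel₀ _ h0
  have hτ0 : 0 ≤ t / σ := by positivity
  have hτ1 : t / σ ≤ 1 := div_le_one_of_le₀ htσ hσ0
  set τ := t / σ with hτ
  have hn : nq (τ * l * a) (τ * l * b) β ≤ 1 := by
    rw [nq_eq] at el ⊢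
    have hN := Nf_pos h1 β
    have : (τ * l) ^ 2 ≤ l ^ 2 := by
      rw [mul_pow]
      have : τ ^ 2 ≤ 1 := by nlinarith
      nlinarith [sq_nonneg l]
    nlinarith
  obtain ⟨z1, z2, hz1, hz2, e1, e2⟩ := exists_ends hn
  have hm := (Wf_strictMono h1).monotoneOn
  have m1 : Vf (τ * l * a) (τ * l * b) z1 ≤ 8630 * w := by
    rw [Vf_eq_Wf h1 e1, ← eβ]
    exact hm (mem_of_nq e1.le) hβ hz1
  have m2 : 8630 * w ≤ Vf (τ * l * a) (τ * l * b) z2 := by
    rw [Vf_eq_Wf h1 e2, ← eβ]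
    exact hm hβ (mem_of_nq e2.le) hz2
  obtain ⟨z, hz, ez⟩ := intermediate_value_Icc (hz1.trans hz2)
    (Vf_cont (τ * l * a) (τ * l * b)).continuousOn ⟨m1, m2⟩
  refine ⟨a, b, l, β, τ, z, ⟨h1, hl, el, hτ0, hτ1, nq_le_one e1.le e2.le hz, ?_⟩, ?_, ?_, ?_⟩
  · rw [ez, Vf_eq_Wf h1 el, eβ]
  · unfold wv
    rw [Vf_eq_Wf h1 el, eβ]
    ring
  · rw [hτσ]
  · rw [hτσ]

end Pool.Agent.H123R3.C1
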